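import Mathlib

set_option autoImplicit false

namespace Pool.Agent.Work.MP_71927a_co

open Finset Classical

/-- Neighbourhood of a finite vertex set. -/
noncomputable def nbhd {B : Type*} [Fintype B] (Θ : SimpleGraph B) (Y : Finset B) : Finset B :=
  univ.filter (fun x => ∃ y ∈ Y, Θ.Adj y x)

/-- The properties of the gadget graph that are used. -/
structure Gadget (B : Type*) [Fintype B] [DecidableEq B] (Θ : SimpleGraph B) (h m : ℕ) :
    Prop where
  tf : Θ.CliqueFree 3
  hole : ∀ X Y : Finset B, h ≤ X.card → h ≤ Y.card → ∃ x ∈ X, ∃ y ∈ Y, Θ.Adj x y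
  expd : ∀ Y : Finset B, Y.card < 3 * h → 2 * (m * Y.card) ≤ (nbhd Θ Y).card
  h1 : 6 * h * 2 ^ 46 ≤ Fintype.card B
  h2 : Fintype.card B ≤ 2 ^ m
  h3 : 5 ≤ m
  h4 : 1 ≤ h

section field

variable {F : Type*} [Field F]

/-- the directed parabola relation -/
def S (u v : F × F) : Prop := u.1 ≠ v.1 ∧ v.2 - u.2 = (v.1 - u.1) ^ 2

/-- the gadget graph -/
def theta (F : Type*) [Field F] : SimpleGraph (F × F) where
  Adj u v := S u v ∨ S v u
  symm := ⟨fun u v h => h.symm⟩
  loopless := ⟨by
    intro u h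
    rcases h with h | h <;> exact h.1 rfl⟩

theorem theta_adj (u v : F × F) : (theta F).Adj u v ↔ (S u v ∨ S v u) := Iff.rfl

theorem cliqueFree_three_of {V : Type*} (G : SimpleGraph V)
    (hG : ∀ a b c, G.Adj a b → G.Adj a c → G.Adj b c → False) : G.CliqueFree 3 := by
  intro s hs
  rw [SimpleGraph.is3Clique_iff] at hs
  obtain ⟨a, b, c, hab, hac, hbc, _⟩ := hs
  exact hG a b c hab hac hbc

theorem theta_cliqueFree (h2 : (2 : F) ≠ 0)
    (hF : ∀ x y : F, x ^ 2 + x * y + y ^ 2 = 0 → x = 0) : (theta F).CliqueFree 3 := by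
  apply cliqueFree_three_of
  intro u w v huw huv hwv
  -- x = v.1 - u.1, y = w.1 - v.1
  have hx : v.1 - u.1 ≠ 0 := by
    rcases huv with h | h
    · exact sub_ne_zero.2 (Ne.symm h.1)
    · exact sub_ne_zero.2 h.1
  have hy : w.1 - v.1 ≠ 0 := by
    rcases hwv with h | h
    · exact sub_ne_zero.2 h.1
    · exact sub_ne_zero.2 (Ne.symm h.1)
  have hxy : (v.1 - u.1) + (w.1 - v.1) ≠ 0 := by
    have : (v.1 - u.1) + (w.1 - v.1) = w.1 - u.1 := by ring
    rw [this]
    rcases huw with h | h
    · exact sub_ne_zero.2 (Ne.symm h.1)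
    · exact sub_ne_zero.2 h.1
  have key1 : ∀ x y : F, 2 * (x * y) = 0 → x ≠ 0 → y ≠ 0 → False := by
    intro x y h hx hy
    rcases mul_eq_zero.1 h with h | h
    · exact h2 h
    · rcases mul_eq_zero.1 h with h | h
      · exact hx h
      · exact hy h
  have key2 : ∀ x y : F, 2 * (x ^ 2 + x * y + y ^ 2) = 0 → x ≠ 0 → False := by
    intro x y h hx
    rcases mul_eq_zero.1 h with h | h
    · exact h2 h
    · exact hx (hF x y h)
  rcases huv with ⟨_, e1⟩ | ⟨_, e1⟩ <;> rcases hwv with ⟨_, e2⟩ | ⟨_, e2⟩ <;>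
    rcases huw with ⟨_, e3⟩ | ⟨_, e3⟩
  · -- S u v, S w v, S u w
    exact key1 (w.1 - v.1) ((v.1 - u.1) + (w.1 - v.1)) (by linear_combination e1 - e2 - e3) hy hxy
  · exact key1 (v.1 - u.1) ((v.1 - u.1) + (w.1 - v.1)) (by linear_combination (-1 : F) * e1 + e2 - e3) hx hxy
  · exact key1 (v.1 - u.1) (w.1 - v.1) (by linear_combination e1 + e2 - e3) hx hy
  · exact key2 (v.1 - u.1) (w.1 - v.1) (by linear_combination (-1 : F) * e1 - e2 - e3) hx
  · exact key2 (v.1 - u.1) (w.1 - v.1) (by linear_combination (-1 : F) * e1 - e2 - e3) hx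
  · exact key1 (v.1 - u.1) (w.1 - v.1) (by linear_combination e1 + e2 - e3) hx hy
  · exact key1 (v.1 - u.1) ((v.1 - u.1) + (w.1 - v.1)) (by linear_combination (-1 : F) * e1 + e2 - e3) hx hxy
  · exact key1 (w.1 - v.1) ((v.1 - u.1) + (w.1 - v.1)) (by linear_combination e1 - e2 - e3) hy hxy

variable [Fintype F]

theorem card_out (u : F × F) :
    (univ.filter (fun v : F × F => S u v)).card = Fintype.card F - 1 := by
  have : (univ.filter (fun v : F × F => S u v)) =
      ((univ : Finset F).erase u.1).image (fun x => (x, u.2 + (x - u.1) ^ 2)) := by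
    ext v
    rw [mem_filter, mem_image]
    simp only [mem_univ, true_and, mem_erase, and_true]
    unfold S
    constructor
    · rintro ⟨h1, h2⟩
      refine ⟨v.1, Ne.symm h1, ?_⟩
      ext
      · rfl
      · simp only
        linear_combination (-1 : F) * h2
    · rintro ⟨x, hx, rfl⟩
      refine ⟨Ne.symm hx, ?_⟩
      simp only
      ring
  rw [this, card_image_of_injective, card_erase_of_mem (mem_univ _), card_univ]
  intro x y hxy
  exact (Prod.ext_iff.1 hxy).1

theorem card_codeg (h2 : (2 : F) ≠ 0) (u u' : F × F) (huu : u ≠ u') :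
    (univ.filter (fun v : F × F => S u v ∧ S u' v)).card ≤ 1 := by
  rw [card_le_one]
  intro v hv w hw
  rw [mem_filter] at hv hw
  obtain ⟨_, ⟨_, a1⟩, ⟨_, a2⟩⟩ := hv
  obtain ⟨_, ⟨_, b1⟩, ⟨_, b2⟩⟩ := hw
  have h1 : u'.1 - u.1 ≠ 0 := by
    intro h
    apply huu
    have h1 : u'.1 = u.1 := by linear_combination h
    have h2 : u'.2 = u.2 := by
      rw [h1] at a2
      linear_combination a1 - a2
    exact Prod.ext h1.symm h2.symm
  have e : 2 * ((u'.1 - u.1) * (v.1 - w.1)) = 0 := by
    linear_combination (-1 : F) * a1 + a2 + b1 - b2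
  have e1 : v.1 - w.1 = 0 := by
    rcases mul_eq_zero.1 e with h | h
    · exact absurd h h2
    · rcases mul_eq_zero.1 h with h | h
      · exact absurd h h1
      · exact h
  have e2 : v.1 = w.1 := by linear_combination e1
  have e3 : v.2 = w.2 := by
    rw [e2] at a1
    linear_combination a1 - b1
  exact Prod.ext e2 e3

theorem expansion (h2 : (2 : F) ≠ 0) (Y : Finset (F × F)) :
    Y.card * (Fintype.card F - 1) ^ 2 ≤
      (nbhd (theta F) Y).card * (Fintype.card F - 1 + Y.card) := by
  rcases Y.eq_empty_or_nonempty with rfl | hY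
  · simp
  set f1 := Fintype.card F - 1 with hf1
  set N := nbhd (theta F) Y with hN
  have hd : ∀ v, v ∉ N → (Y.filter (fun u => S u v)).card = 0 := by
    intro v hv
    rw [card_eq_zero, filter_eq_empty_iff]
    intro u hu hs
    apply hv
    rw [hN, nbhd, mem_filter]
    exact ⟨mem_univ _, u, hu, Or.inl hs⟩
  have s1 : ∑ v ∈ N, (Y.filter (fun u => S u v)).card = Y.card * f1 := by
    have : ∑ v ∈ N, (Y.filter (fun u => S u v)).card
        = ∑ v : F × F, (Y.filter (fun u => S u v)).card := by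
      apply sum_subset (subset_univ _)
      intro v _ hv
      exact hd v hv
    rw [this]
    have h := Finset.sum_card_bipartiteAbove_eq_sum_card_bipartiteBelow
      (s := Y) (t := (univ : Finset (F × F))) (fun u v => S u v)
    simp only [Finset.bipartiteAbove, Finset.bipartiteBelow] at h
    rw [← h]
    rw [sum_congr rfl (fun u _ => card_out u), sum_const, smul_eq_mul]
  have s2 : ∑ v ∈ N, ((Y.filter (fun u => S u v)).card) ^ 2 ≤ Y.card * (f1 + Y.card) := by
    have e : ∀ v : F × F, ((Y.filter (fun u => S u v)).card) ^ 2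
        = ∑ u ∈ Y, ∑ u' ∈ Y, if (S u v ∧ S u' v) then 1 else 0 := by
      intro v
      rw [sq, card_filter, sum_mul_sum]
      apply sum_congr rfl
      intro u _
      apply sum_congr rfl
      intro u' _
      by_cases h1 : S u v <;> by_cases h2 : S u' v <;> simp [h1, h2]
    calc ∑ v ∈ N, ((Y.filter (fun u => S u v)).card) ^ 2
        ≤ ∑ v : F × F, ((Y.filter (fun u => S u v)).card) ^ 2 :=
          sum_le_sum_of_subset (subset_univ _)
      _ = ∑ v : F × F, ∑ u ∈ Y, ∑ u' ∈ Y, (if (S u v ∧ S u' v) then 1 else 0) :=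
          sum_congr rfl (fun v _ => e v)
      _ = ∑ u ∈ Y, ∑ u' ∈ Y, ∑ v : F × F, (if (S u v ∧ S u' v) then 1 else 0) := by
          rw [sum_comm]
          apply sum_congr rfl
          intro u _
          rw [sum_comm]
      _ = ∑ u ∈ Y, ∑ u' ∈ Y, (univ.filter (fun v : F × F => S u v ∧ S u' v)).card := by
          apply sum_congr rfl
          intro u _
          apply sum_congr rfl
          intro u' _
          rw [card_filter]
      _ ≤ ∑ u ∈ Y, ∑ u' ∈ Y, ((if u = u' then f1 else 0) + 1) := by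
          apply sum_le_sum
          intro u _
          apply sum_le_sum
          intro u' _
          by_cases h : u = u'
          · subst h
            simp only [and_self, if_true]
            rw [card_out]
            omega
          · simp only [h, if_false, zero_add]
            exact card_codeg h2 u u' h
      _ = Y.card * (f1 + Y.card) := by
          have : ∀ u ∈ Y, ∑ u' ∈ Y, ((if u = u' then f1 else 0) + 1) = f1 + Y.card := by
            intro u hu
            rw [sum_add_distrib, sum_ite_eq, if_pos hu, sum_const, smul_eq_mul, mul_one]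
          rw [sum_congr rfl this, sum_const, smul_eq_mul]
  have cs := sq_sum_le_card_mul_sum_sq (s := N) (f := fun v => (Y.filter (fun u => S u v)).card)
  rw [s1] at cs
  have h3 : (Y.card * f1) ^ 2 ≤ N.card * (Y.card * (f1 + Y.card)) :=
    cs.trans (Nat.mul_le_mul_left _ s2)
  have hpos : 0 < Y.card := card_pos.2 hY
  apply Nat.le_of_mul_le_mul_left _ hpos
  calc Y.card * (Y.card * f1 ^ 2) = (Y.card * f1) ^ 2 := by ring
    _ ≤ N.card * (Y.card * (f1 + Y.card)) := h3
    _ = Y.card * (N.card * (f1 + Y.card)) := by ring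

end field

theorem nbhd_mono {B : Type*} [Fintype B] (Θ : SimpleGraph B) {X Y : Finset B} (h : X ⊆ Y) :
    nbhd Θ X ⊆ nbhd Θ Y := by
  intro v hv
  rw [nbhd, mem_filter] at hv ⊢
  obtain ⟨h1, y, hy, h2⟩ := hv
  exact ⟨h1, y, h hy, h2⟩

theorem gadget_of_field {F : Type*} [Field F] [Fintype F] [DecidableEq F] (h2 : (2 : F) ≠ 0)
    (hF : ∀ x y : F, x ^ 2 + x * y + y ^ 2 = 0 → x = 0)
    (hc : Fintype.card F = 5 ^ 101) : Gadget (F × F) (theta F) (5 ^ 152) 500 := by
  have hB : Fintype.card (F × F) = 5 ^ 202 := by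
    rw [Fintype.card_prod, hc]; norm_num
  refine ⟨theta_cliqueFree h2 hF, ?_, ?_, ?_, ?_, by norm_num, by norm_num⟩
  · intro X Y hX hY
    by_contra hcon
    push Not at hcon
    obtain ⟨Y', hY', hY'c⟩ := Finset.exists_subset_card_eq hY
    have hdisj : Disjoint X (nbhd (theta F) Y') := by
      rw [Finset.disjoint_left]
      intro x hx hx2
      rw [nbhd, mem_filter] at hx2
      obtain ⟨_, y, hy, hxy⟩ := hx2
      exact hcon x hx y (hY' hy) hxy.symm
    have h1 : X.card + (nbhd (theta F) Y').card ≤ 5 ^ 202 := by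
      rw [← card_union_of_disjoint hdisj, ← hB]
      exact card_le_univ _
    have h3 := expansion h2 Y'
    rw [hY'c, hc] at h3
    have h4 : (nbhd (theta F) Y').card ≤ 5 ^ 202 - 5 ^ 152 := by omega
    have h5 := h3.trans (Nat.mul_le_mul_right _ h4)
    norm_num at h5
  · intro Y hY
    have h3 := expansion h2 Y
    rw [hc] at h3
    have h4 : Y.card * (5 ^ 101 - 1) ^ 2 ≤
        (nbhd (theta F) Y).card * (5 ^ 101 - 1 + 3 * 5 ^ 152) :=
      h3.trans (Nat.mul_le_mul_left _ (by omega))
    have h5 : 1000 * (5 ^ 101 - 1 + 3 * 5 ^ 152) ≤ (5 ^ 101 - 1) ^ 2 := by norm_num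
    have h6 : Y.card * (1000 * (5 ^ 101 - 1 + 3 * 5 ^ 152)) ≤
        (nbhd (theta F) Y).card * (5 ^ 101 - 1 + 3 * 5 ^ 152) :=
      (Nat.mul_le_mul_left _ h5).trans h4
    have h7 : (2 * (500 * Y.card)) * (5 ^ 101 - 1 + 3 * 5 ^ 152) ≤
        (nbhd (theta F) Y).card * (5 ^ 101 - 1 + 3 * 5 ^ 152) := by
      calc (2 * (500 * Y.card)) * (5 ^ 101 - 1 + 3 * 5 ^ 152)
          = Y.card * (1000 * (5 ^ 101 - 1 + 3 * 5 ^ 152)) := by ring
        _ ≤ _ := h6
    exact Nat.le_of_mul_le_mul_right h7 (by norm_num)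
  · rw [hB]; norm_num
  · rw [hB]
    calc (5 : ℕ) ^ 202 ≤ (2 ^ 250) ^ 2 := by norm_num
      _ = 2 ^ 500 := by rw [← pow_mul]

theorem exists_gadget : ∃ (B : Type) (_ : Fintype B) (_ : DecidableEq B) (Θ : SimpleGraph B)
    (h m : ℕ), Gadget B Θ h m := by
  have : Fact (Nat.Prime 5) := ⟨by norm_num⟩
  have : Finite (GaloisField 5 101) := inferInstance
  let _ : Fintype (GaloisField 5 101) := Fintype.ofFinite _
  let _ : DecidableEq (GaloisField 5 101) := Classical.decEq _
  have hc : Fintype.card (GaloisField 5 101) = 5 ^ 101 := by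
    rw [← Nat.card_eq_fintype_card]
    exact GaloisField.card 5 101 (by norm_num)
  have : CharP (GaloisField 5 101) 5 := inferInstance
  have h2 : (2 : GaloisField 5 101) ≠ 0 := by
    intro h
    have : ((2 : ℕ) : GaloisField 5 101) = 0 := by exact_mod_cast h
    rw [CharP.cast_eq_zero_iff (GaloisField 5 101) 5] at this
    norm_num at this
  have h3 : (3 : GaloisField 5 101) ≠ 0 := by
    intro h
    have : ((3 : ℕ) : GaloisField 5 101) = 0 := by exact_mod_cast h
    rw [CharP.cast_eq_zero_iff (GaloisField 5 101) 5] at this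
    norm_num at this
  have hF : ∀ x y : GaloisField 5 101, x ^ 2 + x * y + y ^ 2 = 0 → x = 0 := by
    intro x y hxy
    by_contra hx
    have ht : (y / x) ^ 2 + (y / x) + 1 = 0 := by
      field_simp
      linear_combination hxy
    set t := y / x with htdef
    have ht0 : t ≠ 0 := by
      intro h0
      rw [h0] at ht
      simp at ht
    have ht3 : t ^ 3 = 1 := by linear_combination (t - 1) * ht
    have hp := FiniteField.pow_card_sub_one_eq_one t ht0
    rw [hc] at hp
    have hk : 5 ^ 101 - 1 = 3 * ((5 ^ 101 - 2) / 3) + 1 := by norm_num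
    rw [hk, pow_add, pow_mul, ht3, one_pow, one_mul, pow_one] at hp
    rw [hp] at ht
    apply h3
    linear_combination ht
  exact ⟨GaloisField 5 101 × GaloisField 5 101, inferInstance, inferInstance,
    theta (GaloisField 5 101), 5 ^ 152, 500, gadget_of_field h2 hF hc⟩

end Pool.Agent.Work.MP_71927a_co
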