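import Mathlib

set_option autoImplicit false

namespace Pool.Agent.Work.MP_71927a_co

open Finset

theorem perm_step {B : Type*} [Fintype B] [DecidableEq B] (Y J : Finset B) (x : B) (hx : x ∉ J) :
    (univ.filter (fun σ : Equiv.Perm B => ∀ i ∈ insert x J, σ i ∈ Y)).card * Fintype.card B
      ≤ (univ.filter (fun σ : Equiv.Perm B => ∀ i ∈ J, σ i ∈ Y)).card * Y.card := by
  set A := univ.filter (fun σ : Equiv.Perm B => ∀ i ∈ J, σ i ∈ Y) with hA
  set A' := univ.filter (fun σ : Equiv.Perm B => ∀ i ∈ insert x J, σ i ∈ Y) with hA'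
  have hA'e : A' = A.filter (fun σ => σ x ∈ Y) := by
    ext σ
    simp only [hA, hA', mem_filter, mem_univ, true_and, mem_insert, forall_eq_or_imp]
    tauto
  -- swapping
  have h1 : ∀ z ∈ Jᶜ, (A.filter (fun σ => σ z ∈ Y)).card = A'.card := by
    intro z hz
    rw [mem_compl] at hz
    rw [hA'e]
    apply card_bij' (fun σ _ => σ * Equiv.swap x z) (fun σ _ => σ * Equiv.swap x z)
    · intro σ hσ
      simp only [hA, mem_filter, mem_univ, true_and] at hσ ⊢
      refine ⟨?_, ?_⟩
      · intro i hi
        have h1 : i ≠ x := fun h => hx (h ▸ hi)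
        have h2 : i ≠ z := fun h => hz (h ▸ hi)
        rw [Equiv.Perm.mul_apply, Equiv.swap_apply_of_ne_of_ne h1 h2]
        exact hσ.1 i hi
      · rw [Equiv.Perm.mul_apply, Equiv.swap_apply_left]
        exact hσ.2
    · intro σ hσ
      simp only [hA, mem_filter, mem_univ, true_and] at hσ ⊢
      refine ⟨?_, ?_⟩
      · intro i hi
        have h1 : i ≠ x := fun h => hx (h ▸ hi)
        have h2 : i ≠ z := fun h => hz (h ▸ hi)
        rw [Equiv.Perm.mul_apply, Equiv.swap_apply_of_ne_of_ne h1 h2]
        exact hσ.1 i hi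
      · rw [Equiv.Perm.mul_apply, Equiv.swap_apply_right]
        exact hσ.2
    · intro σ _
      rw [mul_assoc, Equiv.swap_mul_self, mul_one]
    · intro σ _
      rw [mul_assoc, Equiv.swap_mul_self, mul_one]
  have h2 : ∑ z ∈ Jᶜ, (A.filter (fun σ => σ z ∈ Y)).card = ∑ σ ∈ A, (Jᶜ.filter (fun z => σ z ∈ Y)).card := by
    have h := Finset.sum_card_bipartiteAbove_eq_sum_card_bipartiteBelow
      (s := Jᶜ) (t := A) (fun z (σ : Equiv.Perm B) => σ z ∈ Y)
    simpa only [Finset.bipartiteAbove, Finset.bipartiteBelow] using h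
  have h3 : ∀ σ ∈ A, (Jᶜ.filter (fun z => σ z ∈ Y)).card + J.card = Y.card := by
    intro σ hσ
    have hσ' : ∀ i ∈ J, σ i ∈ Y := by
      simpa only [hA, mem_filter, mem_univ, true_and] using hσ
    have e1 : (univ.filter (fun z => σ z ∈ Y)).card = Y.card := by
      have : univ.filter (fun z => σ z ∈ Y) = Y.image σ.symm := by
        ext z
        simp only [mem_filter, mem_univ, true_and, mem_image]
        constructor
        · intro h
          exact ⟨σ z, h, by simp⟩
        · rintro ⟨y, hy, rfl⟩
          simpa using hy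
      rw [this, card_image_of_injective _ σ.symm.injective]
    have e2 : J.filter (fun z => σ z ∈ Y) = J := filter_true_of_mem hσ'
    have e3 : (univ.filter (fun z => σ z ∈ Y)).card
        = (Jᶜ.filter (fun z => σ z ∈ Y)).card + (J.filter (fun z => σ z ∈ Y)).card := by
      rw [← card_union_of_disjoint]
      · rw [← filter_union]
        congr 1
        ext z
        simp [or_comm, em]
      · apply disjoint_filter_filter
        exact disjoint_compl_left
    rw [e2, e1] at e3
    exact e3.symm
  rcases A.eq_empty_or_nonempty with hAe | ⟨σ0, hσ0⟩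
  · have : A' = ∅ := by rw [hA'e, hAe]; rfl
    rw [this]; simp
  have hjy : J.card ≤ Y.card := by
    have := h3 σ0 hσ0
    omega
  have hyb : Y.card ≤ Fintype.card B := card_le_univ _
  have hjb : J.card < Fintype.card B := by
    have : (insert x J).card ≤ Fintype.card B := card_le_univ _
    rw [card_insert_of_notMem hx] at this
    omega
  have h4 : Jᶜ.card * A'.card = A.card * (Y.card - J.card) := by
    rw [← smul_eq_mul, ← sum_const, ← smul_eq_mul, ← sum_const]
    rw [← sum_congr rfl h1, h2]
    apply sum_congr rfl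
    intro σ hσ
    have := h3 σ hσ
    omega
  rw [card_compl] at h4
  obtain ⟨d, hd⟩ : ∃ d, Fintype.card B = J.card + d := ⟨Fintype.card B - J.card, by omega⟩
  obtain ⟨e, he⟩ : ∃ e, Y.card = J.card + e := ⟨Y.card - J.card, by omega⟩
  have hd0 : 0 < d := by omega
  have hed : e ≤ d := by omega
  have h5 : d * A'.card = A.card * e := by
    have t1 : Fintype.card B - J.card = d := by omega
    have t2 : Y.card - J.card = e := by omega
    rw [t1, t2] at h4
    exact h4
  apply Nat.le_of_mul_le_mul_left _ hd0
  calc d * (A'.card * Fintype.card B) = (d * A'.card) * (J.card + d) := by rw [hd]; ring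
    _ = A.card * (e * (J.card + d)) := by rw [h5]; ring
    _ ≤ A.card * (d * (J.card + e)) := by
        apply Nat.mul_le_mul_left
        nlinarith
    _ = d * (A.card * Y.card) := by rw [he]; ring

theorem perm_count {B : Type*} [Fintype B] [DecidableEq B] (Y J : Finset B) :
    (univ.filter (fun σ : Equiv.Perm B => ∀ i ∈ J, σ i ∈ Y)).card * Fintype.card B ^ J.card
      ≤ (Fintype.card B).factorial * Y.card ^ J.card := by
  induction J using Finset.induction_on with
  | empty =>
    simp only [notMem_empty, false_imp_iff, implies_true, filter_true, card_univ, card_empty,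
      pow_zero, mul_one]
    rw [Fintype.card_perm]
  | insert x J hx ih =>
    rw [card_insert_of_notMem hx, pow_succ, pow_succ]
    have h := perm_step Y J x hx
    calc (univ.filter (fun σ : Equiv.Perm B => ∀ i ∈ insert x J, σ i ∈ Y)).card *
          (Fintype.card B ^ J.card * Fintype.card B)
        = ((univ.filter (fun σ : Equiv.Perm B => ∀ i ∈ insert x J, σ i ∈ Y)).card *
          Fintype.card B) * Fintype.card B ^ J.card := by ring
      _ ≤ ((univ.filter (fun σ : Equiv.Perm B => ∀ i ∈ J, σ i ∈ Y)).card * Y.card) *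
          Fintype.card B ^ J.card := Nat.mul_le_mul_right _ h
      _ = ((univ.filter (fun σ : Equiv.Perm B => ∀ i ∈ J, σ i ∈ Y)).card *
          Fintype.card B ^ J.card) * Y.card := by ring
      _ ≤ ((Fintype.card B).factorial * Y.card ^ J.card) * Y.card := Nat.mul_le_mul_right _ ih
      _ = _ := by ring

end Pool.Agent.Work.MP_71927a_co
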