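import Mathlib
import Pool.Agent.Work.MP_71927a_co.Gadget
import Pool.Agent.Work.MP_71927a_co.PermCount

set_option autoImplicit false
set_option linter.unusedSectionVars false

namespace Pool.Agent.Work.MP_71927a_co

open Finset Classical

variable {P C Q B : Type*} [Fintype P] [DecidableEq P] [Fintype C] [DecidableEq C]
  [Fintype Q] [DecidableEq Q] [Fintype B] [DecidableEq B]

/-- the part of `J` on the line `ℓ` -/
def Jl (L : C → P → Q) (J : Finset (P × B)) (ℓ : C × Q) : Finset (P × B) :=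
  J.filter (fun u => L ℓ.1 u.1 = ℓ.2)

/-- the fibre of `J` over a block -/
def fib (J : Finset (P × B)) (g : P) : Finset B := univ.filter (fun i => (g, i) ∈ J)

/-- the labels of `J` on the line `ℓ` -/
def lab (L : C → P → Q) (π : P × C → Equiv.Perm B) (J : Finset (P × B)) (ℓ : C × Q) :
    Finset B :=
  (Jl L J ℓ).image (fun u => π (u.1, ℓ.1) u.2)

/-- the lines that meet `J` -/
def lines (L : C → P → Q) (J : Finset (P × B)) : Finset (C × Q) :=
  ((univ : Finset C) ×ˢ J).image (fun t => (t.1, L t.1 t.2.1))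

/-- bad lines -/
def bad (L : C → P → Q) (m h : ℕ) (π : P × C → Equiv.Perm B) (J : Finset (P × B))
    (ℓ : C × Q) : Prop :=
  m * (lab L π J ℓ).card ≤ (Jl L J ℓ).card ∧ (lab L π J ℓ).card < 3 * h

/-- violating sets -/
def viol (L : C → P → Q) (m h : ℕ) (π : P × C → Equiv.Perm B) (J : Finset (P × B)) : Prop :=
  Fintype.card C * J.card <
    2 * ∑ ℓ ∈ (lines L J).filter (fun ℓ => bad L m h π J ℓ), (Jl L J ℓ).card

theorem mem_Jl (L : C → P → Q) (J : Finset (P × B)) (ℓ : C × Q) (u : P × B) :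
    u ∈ Jl L J ℓ ↔ u ∈ J ∧ L ℓ.1 u.1 = ℓ.2 := by
  rw [Jl, mem_filter]

theorem mem_lines (L : C → P → Q) (J : Finset (P × B)) (ℓ : C × Q) :
    ℓ ∈ lines L J ↔ ∃ u ∈ J, L ℓ.1 u.1 = ℓ.2 := by
  rw [lines, mem_image]
  constructor
  · rintro ⟨t, ht, rfl⟩
    rw [mem_product] at ht
    exact ⟨t.2, ht.2, rfl⟩
  · rintro ⟨u, hu, h⟩
    refine ⟨(ℓ.1, u), ?_, ?_⟩
    · rw [mem_product]
      exact ⟨mem_univ _, hu⟩
    · exact Prod.ext rfl h

theorem Jl_nonempty_of_mem_lines (L : C → P → Q) (J : Finset (P × B)) (ℓ : C × Q)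
    (h : ℓ ∈ lines L J) : (Jl L J ℓ).Nonempty := by
  rw [mem_lines] at h
  obtain ⟨u, hu, h⟩ := h
  exact ⟨u, (mem_Jl _ _ _ _).2 ⟨hu, h⟩⟩

theorem card_lines_le (L : C → P → Q) (J : Finset (P × B)) :
    (lines L J).card ≤ Fintype.card C * J.card := by
  refine card_image_le.trans ?_
  rw [card_product, card_univ]

theorem sum_lines (L : C → P → Q) (J : Finset (P × B)) :
    ∑ ℓ ∈ lines L J, (Jl L J ℓ).card = Fintype.card C * J.card := by
  have h := Finset.card_eq_sum_card_fiberwise (s := (univ : Finset C) ×ˢ J) (t := lines L J)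
    (f := fun t => (t.1, L t.1 t.2.1)) (by
      intro t ht
      have ht' : t ∈ (univ : Finset C) ×ˢ J := ht
      exact mem_image_of_mem _ ht')
  rw [card_product, card_univ] at h
  rw [h]
  apply sum_congr rfl
  intro ℓ _
  apply card_bij (fun u _ => (ℓ.1, u))
  · intro u hu
    rw [mem_Jl] at hu
    rw [mem_filter, mem_product]
    exact ⟨⟨mem_univ _, hu.1⟩, Prod.ext rfl hu.2⟩
  · intro u _ v _ huv
    exact (Prod.ext_iff.1 huv).2
  · intro t ht
    rw [mem_filter, mem_product] at ht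
    obtain ⟨⟨_, h1⟩, h2⟩ := ht
    refine ⟨t.2, ?_, ?_⟩
    · rw [mem_Jl]
      refine ⟨h1, ?_⟩
      rw [← h2]
    · rw [← h2]

theorem card_Jl_eq (L : C → P → Q) (J : Finset (P × B)) (ℓ : C × Q) :
    (Jl L J ℓ).card =
      ∑ f ∈ univ.filter (fun f : P × C => (f.2, L f.2 f.1) = ℓ), (fib J f.1).card := by
  have h := Finset.card_eq_sum_card_fiberwise (s := Jl L J ℓ)
    (t := univ.filter (fun f : P × C => (f.2, L f.2 f.1) = ℓ))
    (f := fun u => (u.1, ℓ.1)) (by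
      intro u hu
      have hu' : u ∈ Jl L J ℓ := hu
      rw [mem_Jl] at hu'
      have : (u.1, ℓ.1) ∈ univ.filter (fun f : P × C => (f.2, L f.2 f.1) = ℓ) := by
        rw [mem_filter]
        exact ⟨mem_univ _, Prod.ext rfl hu'.2⟩
      exact this)
  rw [h]
  apply sum_congr rfl
  intro f hf
  rw [mem_filter] at hf
  apply card_bij (fun u _ => u.2)
  · intro u hu
    rw [mem_filter, mem_Jl] at hu
    obtain ⟨⟨h1, _⟩, h3⟩ := hu
    rw [fib, mem_filter]
    refine ⟨mem_univ _, ?_⟩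
    have : f.1 = u.1 := (Prod.ext_iff.1 h3).1.symm
    rw [this]
    exact h1
  · intro u hu v hv huv
    rw [mem_filter] at hu hv
    have h1 : u.1 = v.1 := by
      have a := (Prod.ext_iff.1 hu.2).1
      have b := (Prod.ext_iff.1 hv.2).1
      exact a.trans b.symm
    exact Prod.ext h1 huv
  · intro i hi
    rw [fib, mem_filter] at hi
    refine ⟨(f.1, i), ?_, rfl⟩
    rw [mem_filter, mem_Jl]
    have e1 : f.2 = ℓ.1 := (Prod.ext_iff.1 hf.2).1
    have e2 : L f.2 f.1 = ℓ.2 := (Prod.ext_iff.1 hf.2).2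
    refine ⟨⟨hi.2, ?_⟩, ?_⟩
    · rw [← e1]; exact e2
    · exact Prod.ext rfl e1.symm

theorem prod_lines (L : C → P → Q) (J : Finset (P × B)) (𝓑 : Finset (C × Q))
    (a : C × Q → ℕ) :
    ∏ f : P × C, (if (f.2, L f.2 f.1) ∈ 𝓑 then a (f.2, L f.2 f.1) ^ (fib J f.1).card else 1)
      = ∏ ℓ ∈ 𝓑, a ℓ ^ (Jl L J ℓ).card := by
  rw [← prod_filter]
  rw [← Finset.prod_fiberwise_of_maps_to
    (s := univ.filter (fun f : P × C => (f.2, L f.2 f.1) ∈ 𝓑)) (t := 𝓑)
    (g := fun f => (f.2, L f.2 f.1)) (by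
      intro f hf
      exact (mem_filter.1 hf).2)]
  apply prod_congr rfl
  intro ℓ hℓ
  rw [card_Jl_eq, ← prod_pow_eq_pow_sum]
  have : filter (fun f : P × C => (f.2, L f.2 f.1) = ℓ)
      (filter (fun f : P × C => (f.2, L f.2 f.1) ∈ 𝓑) univ)
      = univ.filter (fun f : P × C => (f.2, L f.2 f.1) = ℓ) := by
    ext f
    simp only [mem_filter, mem_univ, true_and]
    constructor
    · exact fun h => h.2
    · intro h
      exact ⟨h ▸ hℓ, h⟩
  rw [this]
  apply prod_congr rfl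
  intro f hf
  rw [(mem_filter.1 hf).2]

theorem count1 (L : C → P → Q) (J : Finset (P × B)) (𝓑 : Finset (C × Q))
    (Ys : C × Q → Finset B) :
    (univ.filter (fun π : P × C → Equiv.Perm B =>
        ∀ ℓ ∈ 𝓑, ∀ u ∈ Jl L J ℓ, π (u.1, ℓ.1) u.2 ∈ Ys ℓ)).card *
      ∏ ℓ ∈ 𝓑, (Fintype.card B) ^ (Jl L J ℓ).card
    ≤ Fintype.card (P × C → Equiv.Perm B) * ∏ ℓ ∈ 𝓑, (Ys ℓ).card ^ (Jl L J ℓ).card := by
  set T : P × C → Finset (Equiv.Perm B) := fun f =>
    if (f.2, L f.2 f.1) ∈ 𝓑 then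
      univ.filter (fun σ : Equiv.Perm B => ∀ i ∈ fib J f.1, σ i ∈ Ys (f.2, L f.2 f.1))
    else univ with hT
  have hsub : (univ.filter (fun π : P × C → Equiv.Perm B =>
        ∀ ℓ ∈ 𝓑, ∀ u ∈ Jl L J ℓ, π (u.1, ℓ.1) u.2 ∈ Ys ℓ)) ⊆ Fintype.piFinset T := by
    intro π hπ
    rw [mem_filter] at hπ
    rw [Fintype.mem_piFinset]
    intro f
    simp only [hT]
    split_ifs with hf
    · rw [mem_filter]
      refine ⟨mem_univ _, ?_⟩
      intro i hi
      rw [fib, mem_filter] at hi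
      have := hπ.2 (f.2, L f.2 f.1) hf (f.1, i) ((mem_Jl _ _ _ _).2 ⟨hi.2, rfl⟩)
      simpa using this
    · exact mem_univ _
  have hc : (univ.filter (fun π : P × C → Equiv.Perm B =>
        ∀ ℓ ∈ 𝓑, ∀ u ∈ Jl L J ℓ, π (u.1, ℓ.1) u.2 ∈ Ys ℓ)).card ≤ ∏ f, (T f).card := by
    rw [← Fintype.card_piFinset]
    exact card_le_card hsub
  rw [← prod_lines L J 𝓑 (fun _ => Fintype.card B), ← prod_lines L J 𝓑 (fun ℓ => (Ys ℓ).card)]
  have hΩ : Fintype.card (P × C → Equiv.Perm B) = ∏ _f : P × C, (Fintype.card B).factorial := by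
    rw [prod_const, card_univ, Fintype.card_fun, Fintype.card_perm]
  rw [hΩ, ← prod_mul_distrib]
  refine (Nat.mul_le_mul_right _ hc).trans ?_
  rw [← prod_mul_distrib]
  apply prod_le_prod'
  intro f _
  simp only [hT]
  split_ifs with hf
  · exact perm_count _ _
  · rw [card_univ, Fintype.card_perm]

end Pool.Agent.Work.MP_71927a_co
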