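import Mathlib
import Pool.Agent.Work.MP_71927a_co.Lines

set_option autoImplicit false
set_option linter.unusedSectionVars false

namespace Pool.Agent.Work.MP_71927a_co

open Finset Classical

theorem line_ineq (b h m y j K : ℕ) (h1 : 6 * h * K ≤ b) (h2 : b ≤ 2 ^ m)
    (hy1 : m * y ≤ j) (hy2 : y ≤ 3 * h) :
    b.choose y * y ^ j * K ^ j ≤ b ^ j := by
  have e1 : b.choose y ≤ 2 ^ j := by
    calc b.choose y ≤ b ^ y := Nat.choose_le_pow b y
      _ ≤ (2 ^ m) ^ y := Nat.pow_le_pow_left h2 y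
      _ = 2 ^ (m * y) := by rw [← pow_mul]
      _ ≤ 2 ^ j := Nat.pow_le_pow_right (by norm_num) hy1
  have e2 : y ^ j ≤ (3 * h) ^ j := Nat.pow_le_pow_left hy2 j
  calc b.choose y * y ^ j * K ^ j ≤ 2 ^ j * (3 * h) ^ j * K ^ j :=
        Nat.mul_le_mul_right _ (Nat.mul_le_mul e1 e2)
    _ = (2 * (3 * h) * K) ^ j := by
        rw [mul_pow (2 * (3 * h)) K j, mul_pow 2 (3 * h) j]
    _ = (6 * h * K) ^ j := by
        congr 1
        ring
    _ ≤ b ^ j := Nat.pow_le_pow_left h1 j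

variable {P C Q B : Type*} [Fintype P] [DecidableEq P] [Fintype C] [DecidableEq C]
  [Fintype Q] [DecidableEq Q] [Fintype B] [DecidableEq B]

theorem count2 (L : C → P → Q) (Θ : SimpleGraph B) (h m : ℕ) (hG : Gadget B Θ h m)
    (J : Finset (P × B)) (𝓑 : Finset (C × Q)) :
    (univ.filter (fun π : P × C → Equiv.Perm B => ∀ ℓ ∈ 𝓑, bad L m h π J ℓ)).card *
      (2 ^ 46) ^ (∑ ℓ ∈ 𝓑, (Jl L J ℓ).card) ≤ Fintype.card (P × C → Equiv.Perm B) := by
  set y : C × Q → ℕ := fun ℓ => min ((Jl L J ℓ).card / m) (3 * h - 1) with hy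
  set W : Finset (C × Q → Finset B) :=
    Fintype.piFinset (fun ℓ => if ℓ ∈ 𝓑 then powersetCard (y ℓ) univ else {∅}) with hW
  have hm : 0 < m := by have := hG.h3; omega
  have hh : 1 ≤ h := hG.h4
  have hbpos : 0 < Fintype.card B := by
    have := hG.h1
    have h2 : 0 < 6 * h * 2 ^ 46 := by positivity
    omega
  have hsub : (univ.filter (fun π : P × C → Equiv.Perm B => ∀ ℓ ∈ 𝓑, bad L m h π J ℓ)) ⊆
      W.biUnion (fun Ys => univ.filter (fun π : P × C → Equiv.Perm B =>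
        ∀ ℓ ∈ 𝓑, ∀ u ∈ Jl L J ℓ, π (u.1, ℓ.1) u.2 ∈ Ys ℓ)) := by
    intro π hπ
    rw [mem_filter] at hπ
    have hex : ∀ ℓ, ∃ Y : Finset B, (ℓ ∈ 𝓑 → lab L π J ℓ ⊆ Y ∧ Y.card = y ℓ) := by
      intro ℓ
      by_cases hℓ : ℓ ∈ 𝓑
      · obtain ⟨b1, b2⟩ := hπ.2 ℓ hℓ
        have c1 : (lab L π J ℓ).card ≤ y ℓ := by
          apply le_min
          · rw [Nat.le_div_iff_mul_le hm, mul_comm]
            exact b1
          · omega
        have c2 : y ℓ ≤ (univ : Finset B).card := by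
          rw [card_univ]
          refine (min_le_right _ _).trans ?_
          have := hG.h1
          have h2 : 3 * h ≤ 6 * h * 2 ^ 46 := by
            have : 6 * h * 2 ^ 46 = 3 * h * (2 * 2 ^ 46) := by ring
            rw [this]
            exact Nat.le_mul_of_pos_right _ (by positivity)
          omega
        obtain ⟨Y, hY1, _, hY3⟩ := Finset.exists_subsuperset_card_eq (subset_univ _) c1 c2
        exact ⟨Y, fun _ => ⟨hY1, hY3⟩⟩
      · exact ⟨∅, fun h => absurd h hℓ⟩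
    choose Y hY using hex
    rw [mem_biUnion]
    refine ⟨fun ℓ => if ℓ ∈ 𝓑 then Y ℓ else ∅, ?_, ?_⟩
    · rw [hW, Fintype.mem_piFinset]
      intro ℓ
      by_cases hℓ : ℓ ∈ 𝓑
      · simp only [hℓ, if_true]
        rw [mem_powersetCard]
        exact ⟨subset_univ _, (hY ℓ hℓ).2⟩
      · simp only [hℓ, if_false, mem_singleton]
    · rw [mem_filter]
      refine ⟨mem_univ _, ?_⟩
      intro ℓ hℓ u hu
      simp only [hℓ, if_true]
      apply (hY ℓ hℓ).1
      rw [lab, mem_image]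
      exact ⟨u, hu, rfl⟩
  have hWc : W.card = ∏ ℓ ∈ 𝓑, (Fintype.card B).choose (y ℓ) := by
    rw [hW, Fintype.card_piFinset]
    have : ∀ ℓ : C × Q, ((if ℓ ∈ 𝓑 then powersetCard (y ℓ) (univ : Finset B) else {∅}) :
        Finset (Finset B)).card = if ℓ ∈ 𝓑 then (Fintype.card B).choose (y ℓ) else 1 := by
      intro ℓ
      split_ifs
      · rw [card_powersetCard, card_univ]
      · rw [card_singleton]
    rw [prod_congr rfl (fun ℓ _ => this ℓ)]
    rw [prod_ite_mem, univ_inter]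
  set D := ∏ ℓ ∈ 𝓑, (Fintype.card B) ^ (Jl L J ℓ).card with hD
  have hDpos : 0 < D := by
    rw [hD]
    apply prod_pos
    intro ℓ _
    positivity
  set Ω := Fintype.card (P × C → Equiv.Perm B) with hΩ
  have k1 : (univ.filter (fun π : P × C → Equiv.Perm B => ∀ ℓ ∈ 𝓑, bad L m h π J ℓ)).card * D
      ≤ Ω * ∏ ℓ ∈ 𝓑, ((Fintype.card B).choose (y ℓ) * (y ℓ) ^ (Jl L J ℓ).card) := by
    calc (univ.filter (fun π : P × C → Equiv.Perm B => ∀ ℓ ∈ 𝓑, bad L m h π J ℓ)).card * D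
        ≤ (∑ Ys ∈ W, (univ.filter (fun π : P × C → Equiv.Perm B =>
            ∀ ℓ ∈ 𝓑, ∀ u ∈ Jl L J ℓ, π (u.1, ℓ.1) u.2 ∈ Ys ℓ)).card) * D := by
          apply Nat.mul_le_mul_right
          exact (card_le_card hsub).trans card_biUnion_le
      _ = ∑ Ys ∈ W, (univ.filter (fun π : P × C → Equiv.Perm B =>
            ∀ ℓ ∈ 𝓑, ∀ u ∈ Jl L J ℓ, π (u.1, ℓ.1) u.2 ∈ Ys ℓ)).card * D := by
          rw [sum_mul]
      _ ≤ ∑ Ys ∈ W, Ω * ∏ ℓ ∈ 𝓑, (y ℓ) ^ (Jl L J ℓ).card := by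
          apply sum_le_sum
          intro Ys hYs
          refine (count1 L J 𝓑 Ys).trans ?_
          apply Nat.mul_le_mul_left
          apply le_of_eq
          apply prod_congr rfl
          intro ℓ hℓ
          have := (Fintype.mem_piFinset.1 hYs) ℓ
          rw [if_pos hℓ, mem_powersetCard] at this
          rw [this.2]
      _ = Ω * ∏ ℓ ∈ 𝓑, ((Fintype.card B).choose (y ℓ) * (y ℓ) ^ (Jl L J ℓ).card) := by
          rw [sum_const, smul_eq_mul, hWc, prod_mul_distrib]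
          ring
  have k2 : (univ.filter (fun π : P × C → Equiv.Perm B => ∀ ℓ ∈ 𝓑, bad L m h π J ℓ)).card * D *
      (2 ^ 46) ^ (∑ ℓ ∈ 𝓑, (Jl L J ℓ).card) ≤ Ω * D := by
    calc _ ≤ Ω * (∏ ℓ ∈ 𝓑, ((Fintype.card B).choose (y ℓ) * (y ℓ) ^ (Jl L J ℓ).card)) *
          (2 ^ 46) ^ (∑ ℓ ∈ 𝓑, (Jl L J ℓ).card) := Nat.mul_le_mul_right _ k1
      _ = Ω * ∏ ℓ ∈ 𝓑, ((Fintype.card B).choose (y ℓ) * (y ℓ) ^ (Jl L J ℓ).card *
            (2 ^ 46) ^ (Jl L J ℓ).card) := by
          rw [mul_assoc, ← prod_pow_eq_pow_sum, ← prod_mul_distrib]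
      _ ≤ Ω * D := by
          apply Nat.mul_le_mul_left
          rw [hD]
          apply prod_le_prod'
          intro ℓ _
          apply line_ineq _ h m _ _ _ hG.h1 hG.h2
          · calc m * y ℓ ≤ m * ((Jl L J ℓ).card / m) := Nat.mul_le_mul_left _ (min_le_left _ _)
              _ ≤ (Jl L J ℓ).card := Nat.mul_div_le _ _
          · refine (min_le_right _ _).trans ?_
            omega
  apply Nat.le_of_mul_le_mul_right _ hDpos
  calc _ = (univ.filter (fun π : P × C → Equiv.Perm B => ∀ ℓ ∈ 𝓑, bad L m h π J ℓ)).card * D *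
      (2 ^ 46) ^ (∑ ℓ ∈ 𝓑, (Jl L J ℓ).card) := by ring
    _ ≤ _ := k2

theorem count3 (L : C → P → Q) (Θ : SimpleGraph B) (h m : ℕ) (hG : Gadget B Θ h m)
    (J : Finset (P × B)) :
    (univ.filter (fun π : P × C → Equiv.Perm B => viol L m h π J)).card *
      2 ^ (22 * (Fintype.card C * J.card)) ≤ Fintype.card (P × C → Equiv.Perm B) := by
  set Ω := Fintype.card (P × C → Equiv.Perm B) with hΩ
  set rs := Fintype.card C * J.card with hrs
  set U := (lines L J).powerset.filter (fun 𝓑 => rs < 2 * ∑ ℓ ∈ 𝓑, (Jl L J ℓ).card) with hU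
  have hsub : (univ.filter (fun π : P × C → Equiv.Perm B => viol L m h π J)) ⊆
      U.biUnion (fun 𝓑 => univ.filter (fun π : P × C → Equiv.Perm B =>
        ∀ ℓ ∈ 𝓑, bad L m h π J ℓ)) := by
    intro π hπ
    rw [mem_filter] at hπ
    rw [mem_biUnion]
    refine ⟨(lines L J).filter (fun ℓ => bad L m h π J ℓ), ?_, ?_⟩
    · rw [hU, mem_filter, mem_powerset]
      exact ⟨filter_subset _ _, hπ.2⟩
    · rw [mem_filter]
      exact ⟨mem_univ _, fun ℓ hℓ => (mem_filter.1 hℓ).2⟩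
  have hUc : U.card ≤ 2 ^ rs := by
    calc U.card ≤ (lines L J).powerset.card := card_le_card (filter_subset _ _)
      _ = 2 ^ (lines L J).card := card_powerset _
      _ ≤ 2 ^ rs := Nat.pow_le_pow_right (by norm_num) (card_lines_le L J)
  have k1 : (univ.filter (fun π : P × C → Equiv.Perm B => viol L m h π J)).card * 2 ^ (23 * rs)
      ≤ 2 ^ rs * Ω := by
    calc _ ≤ (∑ 𝓑 ∈ U, (univ.filter (fun π : P × C → Equiv.Perm B =>
        ∀ ℓ ∈ 𝓑, bad L m h π J ℓ)).card) * 2 ^ (23 * rs) := by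
          apply Nat.mul_le_mul_right
          exact (card_le_card hsub).trans card_biUnion_le
      _ = ∑ 𝓑 ∈ U, (univ.filter (fun π : P × C → Equiv.Perm B =>
        ∀ ℓ ∈ 𝓑, bad L m h π J ℓ)).card * 2 ^ (23 * rs) := by rw [sum_mul]
      _ ≤ ∑ 𝓑 ∈ U, Ω := by
          apply sum_le_sum
          intro 𝓑 h𝓑
          rw [hU, mem_filter] at h𝓑
          refine le_trans ?_ (count2 L Θ h m hG J 𝓑)
          apply Nat.mul_le_mul_left
          rw [← pow_mul]
          apply Nat.pow_le_pow_right (by norm_num)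
          omega
      _ = U.card * Ω := by rw [sum_const, smul_eq_mul]
      _ ≤ 2 ^ rs * Ω := Nat.mul_le_mul_right _ hUc
  apply Nat.le_of_mul_le_mul_left _ (show 0 < 2 ^ rs by positivity)
  calc _ = (univ.filter (fun π : P × C → Equiv.Perm B => viol L m h π J)).card *
        (2 ^ rs * 2 ^ (22 * rs)) := by ring
    _ = (univ.filter (fun π : P × C → Equiv.Perm B => viol L m h π J)).card * 2 ^ (23 * rs) := by
        rw [← pow_add]
        congr 2
        ring
    _ ≤ _ := k1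

end Pool.Agent.Work.MP_71927a_co
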