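import Mathlib
import Pool.Agent.Work.MP_71927a_co.Count

set_option autoImplicit false
set_option linter.unusedSectionVars false

namespace Pool.Agent.Work.MP_71927a_co

open Finset Classical

section walk

variable {V κ : Type*} [DecidableEq V]

/-- the set visited by a coded walk -/
def dec (nb : V → κ → V) : V → List κ → Finset V
  | v, [] => {v}
  | v, k :: l => insert v (dec nb (nb v k) l)

theorem mem_dec_self (nb : V → κ → V) (v : V) (l : List κ) : v ∈ dec nb v l := by
  cases l with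
  | nil => simp [dec]
  | cons a l => simp [dec]

theorem dec_insert (nb : V → κ → V) (u w : V) (k k' : κ) (h1 : nb u k = w) (h2 : nb w k' = u) :
    ∀ (l : List κ) (v : V), u ∈ dec nb v l →
      ∃ l' : List κ, l'.length = l.length + 2 ∧ dec nb v l' = insert w (dec nb v l) := by
  intro l
  induction l with
  | nil =>
    intro v hv
    rw [dec, mem_singleton] at hv
    subst hv
    refine ⟨[k, k'], rfl, ?_⟩
    simp only [dec, h1, h2]
    ext x
    simp only [mem_insert, mem_singleton]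
    tauto
  | cons a l ih =>
    intro v hv
    rw [dec, mem_insert] at hv
    rcases hv with hv | hv
    · subst hv
      refine ⟨k :: k' :: a :: l, rfl, ?_⟩
      have : dec nb u (k :: k' :: a :: l) = insert u (insert w (dec nb u (a :: l))) := by
        show insert u (insert (nb u k) (dec nb (nb (nb u k) k') (a :: l))) = _
        rw [h1, h2]
      rw [this]
      ext x
      simp only [mem_insert]
      constructor
      · rintro (rfl | h | h)
        · exact Or.inr (mem_dec_self _ _ _)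
        · exact Or.inl h
        · exact Or.inr h
      · rintro (h | h)
        · exact Or.inr (Or.inl h)
        · exact Or.inr (Or.inr h)
    · obtain ⟨l', hl1, hl2⟩ := ih (nb v a) hv
      refine ⟨a :: l', by simp [hl1], ?_⟩
      show insert v (dec nb (nb v a) l') = insert w (insert v (dec nb (nb v a) l))
      rw [hl2, Finset.insert_comm]

theorem dec_of_connected (nb : V → κ → V) (J : Finset V) (hJ : J.Nonempty)
    (hconn : ∀ S ⊆ J, S.Nonempty → S ≠ J →
      ∃ u ∈ S, ∃ w ∈ J, w ∉ S ∧ (∃ k, nb u k = w) ∧ (∃ k', nb w k' = u)) :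
    ∃ (v : V) (l : List κ), l.length = 2 * (J.card - 1) ∧ dec nb v l = J := by
  have key : ∀ t, t + 1 ≤ J.card → ∃ (v : V) (l : List κ) (S : Finset V), S ⊆ J ∧
      S.card = t + 1 ∧ l.length = 2 * t ∧ dec nb v l = S := by
    intro t
    induction t with
    | zero =>
      intro _
      obtain ⟨v, hv⟩ := hJ
      exact ⟨v, [], {v}, singleton_subset_iff.2 hv, card_singleton _, rfl, rfl⟩
    | succ t ih =>
      intro ht
      obtain ⟨v, l, S, hS1, hS2, hl, hd⟩ := ih (by omega)
      have hSne : S.Nonempty := card_pos.1 (by omega)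
      have hSJ : S ≠ J := by
        intro h
        rw [h] at hS2
        omega
      obtain ⟨u, hu, w, hw, hwS, ⟨k, hk⟩, ⟨k', hk'⟩⟩ := hconn S hS1 hSne hSJ
      obtain ⟨l', hl1, hl2⟩ := dec_insert nb u w k k' hk hk' l v (by rw [hd]; exact hu)
      refine ⟨v, l', insert w S, ?_, ?_, ?_, ?_⟩
      · intro x hx
        rcases mem_insert.1 hx with h | h
        · rw [h]; exact hw
        · exact hS1 h
      · rw [card_insert_of_notMem hwS, hS2]
      · rw [hl1, hl]; ring
      · rw [hl2, hd]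
  have hpos : 0 < J.card := card_pos.2 hJ
  obtain ⟨v, l, S, hS1, hS2, hl, hd⟩ := key (J.card - 1) (by omega)
  have : S = J := eq_of_subset_of_card_le hS1 (by omega)
  exact ⟨v, l, hl, by rw [hd, this]⟩

end walk

variable {P C Q B : Type*} [Fintype P] [DecidableEq P] [Fintype C] [DecidableEq C]
  [Fintype Q] [DecidableEq Q] [Fintype B] [DecidableEq B]

theorem sum_lines_filter (L : C → P → Q) (J : Finset (P × B)) (p : C × Q → Prop) :
    ∑ ℓ ∈ (lines L J).filter (fun ℓ => p ℓ), (Jl L J ℓ).card =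
      ∑ u ∈ J, (univ.filter (fun c : C => p (c, L c u.1))).card := by
  have h := Finset.card_eq_sum_card_fiberwise
    (s := ((univ : Finset C) ×ˢ J).filter (fun t => p (t.1, L t.1 t.2.1)))
    (t := (lines L J).filter (fun ℓ => p ℓ))
    (f := fun t => (t.1, L t.1 t.2.1)) (by
      intro t ht
      have ht' : t ∈ ((univ : Finset C) ×ˢ J).filter (fun t => p (t.1, L t.1 t.2.1)) := ht
      rw [mem_filter] at ht'
      have : (t.1, L t.1 t.2.1) ∈ (lines L J).filter (fun ℓ => p ℓ) := by
        rw [mem_filter]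
        exact ⟨mem_image_of_mem _ ht'.1, ht'.2⟩
      exact this)
  have h2 : (((univ : Finset C) ×ˢ J).filter (fun t => p (t.1, L t.1 t.2.1))).card
      = ∑ u ∈ J, (univ.filter (fun c : C => p (c, L c u.1))).card := by
    rw [card_filter, sum_product_right]
    apply sum_congr rfl
    intro u _
    rw [card_filter]
  rw [← h2, h]
  apply sum_congr rfl
  intro ℓ hℓ
  rw [mem_filter] at hℓ
  apply card_bij (fun u _ => (ℓ.1, u))
  · intro u hu
    rw [mem_Jl] at hu
    rw [mem_filter, mem_filter, mem_product]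
    have e : (ℓ.1, L ℓ.1 u.1) = ℓ := Prod.ext rfl hu.2
    refine ⟨⟨⟨mem_univ _, hu.1⟩, ?_⟩, e⟩
    show p (ℓ.1, L ℓ.1 u.1)
    rw [e]; exact hℓ.2
  · intro u _ v _ huv
    exact (Prod.ext_iff.1 huv).2
  · intro t ht
    rw [mem_filter, mem_filter, mem_product] at ht
    obtain ⟨⟨⟨_, h1⟩, _⟩, h2⟩ := ht
    refine ⟨t.2, ?_, ?_⟩
    · rw [mem_Jl]
      refine ⟨h1, ?_⟩
      rw [← h2]
    · rw [← h2]

theorem bad_congr (L : C → P → Q) (m h : ℕ) (π : P × C → Equiv.Perm B)
    (J J' : Finset (P × B)) (ℓ : C × Q) (e : Jl L J ℓ = Jl L J' ℓ) :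
    bad L m h π J ℓ ↔ bad L m h π J' ℓ := by
  unfold bad lab
  rw [e]

theorem viol_conn (L : C → P → Q) (m h : ℕ) (π : P × C → Equiv.Perm B) (J : Finset (P × B))
    (hv : viol L m h π J) (hmin : ∀ J', viol L m h π J' → J.card ≤ J'.card)
    (S : Finset (P × B)) (hSJ : S ⊆ J) (hS : S.Nonempty) (hne : S ≠ J) :
    ∃ u ∈ S, ∃ w ∈ J, w ∉ S ∧ ∃ c, L c u.1 = L c w.1 := by
  by_contra hcon
  push Not at hcon
  set S' := J \ S with hS'
  have hJu : J = S ∪ S' := (union_sdiff_of_subset hSJ).symm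
  have hcard : J.card = S.card + S'.card := by
    rw [hS', ← card_sdiff_add_card_eq_card hSJ]; ring
  have e1 : ∀ ℓ ∈ lines L S, Jl L J ℓ = Jl L S ℓ := by
    intro ℓ hℓ
    obtain ⟨u, hu, huℓ⟩ := (mem_lines _ _ _).1 hℓ
    ext w
    rw [mem_Jl, mem_Jl]
    constructor
    · rintro ⟨hw, hwℓ⟩
      refine ⟨?_, hwℓ⟩
      by_contra hwS
      exact hcon u hu w hw hwS ℓ.1 (huℓ.trans hwℓ.symm)
    · rintro ⟨hw, hwℓ⟩
      exact ⟨hSJ hw, hwℓ⟩
  have e2 : ∀ ℓ ∈ lines L S', Jl L J ℓ = Jl L S' ℓ := by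
    intro ℓ hℓ
    obtain ⟨u, hu, huℓ⟩ := (mem_lines _ _ _).1 hℓ
    rw [hS', mem_sdiff] at hu
    ext w
    rw [mem_Jl, mem_Jl]
    constructor
    · rintro ⟨hw, hwℓ⟩
      refine ⟨?_, hwℓ⟩
      rw [hS', mem_sdiff]
      refine ⟨hw, ?_⟩
      intro hwS
      exact hcon w hwS u hu.1 hu.2 ℓ.1 (hwℓ.trans huℓ.symm)
    · rintro ⟨hw, hwℓ⟩
      rw [hS', mem_sdiff] at hw
      exact ⟨hw.1, hwℓ⟩
  have hdisj : Disjoint (lines L S) (lines L S') := by
    rw [disjoint_left]
    intro ℓ h1 h2
    obtain ⟨u, hu, huℓ⟩ := (mem_lines _ _ _).1 h1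
    obtain ⟨w, hw, hwℓ⟩ := (mem_lines _ _ _).1 h2
    rw [hS', mem_sdiff] at hw
    exact hcon u hu w hw.1 hw.2 ℓ.1 (huℓ.trans hwℓ.symm)
  have hlines : lines L J = lines L S ∪ lines L S' := by
    ext ℓ
    rw [mem_union, mem_lines, mem_lines, mem_lines]
    constructor
    · rintro ⟨u, hu, huℓ⟩
      rw [hJu, mem_union] at hu
      rcases hu with hu | hu
      · exact Or.inl ⟨u, hu, huℓ⟩
      · exact Or.inr ⟨u, hu, huℓ⟩
    · rintro (⟨u, hu, huℓ⟩ | ⟨u, hu, huℓ⟩)
      · exact ⟨u, hSJ hu, huℓ⟩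
      · rw [hS', mem_sdiff] at hu
        exact ⟨u, hu.1, huℓ⟩
  have hsum : ∑ ℓ ∈ (lines L J).filter (fun ℓ => bad L m h π J ℓ), (Jl L J ℓ).card
      = ∑ ℓ ∈ (lines L S).filter (fun ℓ => bad L m h π S ℓ), (Jl L S ℓ).card
      + ∑ ℓ ∈ (lines L S').filter (fun ℓ => bad L m h π S' ℓ), (Jl L S' ℓ).card := by
    rw [hlines, filter_union, sum_union (disjoint_filter_filter hdisj)]
    congr 1
    · rw [sum_filter, sum_filter]
      apply sum_congr rfl
      intro ℓ hℓ
      rw [e1 ℓ hℓ]
      have := bad_congr L m h π J S ℓ (e1 ℓ hℓ)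
      simp only [this]
    · rw [sum_filter, sum_filter]
      apply sum_congr rfl
      intro ℓ hℓ
      rw [e2 ℓ hℓ]
      have := bad_congr L m h π J S' ℓ (e2 ℓ hℓ)
      simp only [this]
  unfold viol at hv
  rw [hsum, hcard, mul_add] at hv
  have hSpos : 0 < S.card := card_pos.2 hS
  have hS'pos : 0 < S'.card := by
    rw [card_pos, hS', sdiff_nonempty]
    intro h
    exact hne (subset_antisymm hSJ h)
  by_cases hvS : viol L m h π S
  · have := hmin S hvS
    omega
  · have hvS' : viol L m h π S' := by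
      unfold viol at hvS ⊢
      omega
    have := hmin S' hvS'
    omega

theorem viol_large (L : C → P → Q) (m h : ℕ) (hm : 5 ≤ m) (π : P × C → Equiv.Perm B)
    (hlin : ∀ g g' : P, ∀ c c' : C, g ≠ g' → L c g = L c g' → L c' g = L c' g' → c = c')
    (J : Finset (P × B)) (hv : viol L m h π J) : 2 * Fintype.card C ≤ J.card := by
  have h1 : ∃ u ∈ J, Fintype.card C <
      2 * (univ.filter (fun c : C => bad L m h π J (c, L c u.1))).card := by
    by_contra hcon
    push Not at hcon
    unfold viol at hv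
    rw [sum_lines_filter] at hv
    have : 2 * ∑ u ∈ J, (univ.filter (fun c : C => bad L m h π J (c, L c u.1))).card
        ≤ Fintype.card C * J.card := by
      rw [mul_sum, mul_comm (Fintype.card C), ← smul_eq_mul, ← sum_const]
      exact sum_le_sum hcon
    omega
  obtain ⟨u, hu, hCb⟩ := h1
  set Cb := univ.filter (fun c : C => bad L m h π J (c, L c u.1)) with hCbdef
  set M : C → Finset (P × B) := fun c => (Jl L J (c, L c u.1)).filter (fun v => v.1 ≠ u.1) with hM
  have hMc : ∀ c ∈ Cb, 4 ≤ (M c).card := by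
    intro c hc
    rw [hCbdef, mem_filter] at hc
    obtain ⟨_, b1, _⟩ := hc
    set Bk := (Jl L J (c, L c u.1)).filter (fun v => v.1 = u.1) with hBk
    have hBk1 : Bk.card ≤ (lab L π J (c, L c u.1)).card := by
      apply card_le_card_of_injOn (fun v => π (u.1, c) v.2)
      · intro v hv
        have hv' : v ∈ Bk := hv
        rw [hBk, mem_filter] at hv'
        have : π (u.1, c) v.2 ∈ lab L π J (c, L c u.1) := by
          rw [lab, mem_image]
          refine ⟨v, hv'.1, ?_⟩
          rw [hv'.2]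
        exact this
      · intro v hv w hw hvw
        have hv' : v ∈ Bk := hv
        have hw' : w ∈ Bk := hw
        rw [hBk, mem_filter] at hv' hw'
        have : v.2 = w.2 := (π (u.1, c)).injective hvw
        exact Prod.ext (hv'.2.trans hw'.2.symm) this
    have huB : u ∈ Bk := by
      rw [hBk, mem_filter, mem_Jl]
      exact ⟨⟨hu, rfl⟩, rfl⟩
    have hBk0 : 0 < Bk.card := card_pos.2 ⟨u, huB⟩
    have hsplit : Bk.card + (M c).card = (Jl L J (c, L c u.1)).card := by
      rw [hBk, hM]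
      exact card_filter_add_card_filter_not _
    have : 5 * (lab L π J (c, L c u.1)).card ≤ m * (lab L π J (c, L c u.1)).card :=
      Nat.mul_le_mul_right _ hm
    omega
  have hdisj : ∀ c ∈ Cb, ∀ c' ∈ Cb, c ≠ c' → Disjoint (M c) (M c') := by
    intro c _ c' _ hcc
    rw [disjoint_left]
    intro v hv hv'
    rw [hM] at hv hv'
    simp only [mem_filter, mem_Jl] at hv hv'
    exact hcc (hlin v.1 u.1 c c' hv.2 hv.1.2 hv'.1.2)
  have hbi : (Cb.biUnion M).card = ∑ c ∈ Cb, (M c).card := card_biUnion hdisj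
  have hle : (Cb.biUnion M).card ≤ J.card := by
    apply card_le_card
    intro v hv
    rw [mem_biUnion] at hv
    obtain ⟨c, _, hv⟩ := hv
    rw [hM] at hv
    simp only [mem_filter, mem_Jl] at hv
    exact hv.1.1
  have hge : Cb.card * 4 ≤ ∑ c ∈ Cb, (M c).card := by
    rw [← smul_eq_mul]
    exact card_nsmul_le_sum _ _ _ hMc
  omega

end Pool.Agent.Work.MP_71927a_co
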