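import Mathlib
import Pool.Agent.Work.MP_71927a_co.Walk

set_option autoImplicit false
set_option linter.unusedSectionVars false

namespace Pool.Agent.Work.MP_71927a_co

open Finset Classical

theorem geom_Icc (n : ℕ) : ∑ s ∈ Icc 1 n, (1 / 2 : ℝ) ^ s = 1 - (1 / 2 : ℝ) ^ n := by
  induction n with
  | zero => simp
  | succ n ih =>
    rw [Finset.sum_Icc_succ_top (by omega), ih, pow_succ]
    ring

variable {P C Q B : Type*} [Fintype P] [DecidableEq P] [Fintype C] [DecidableEq C]
  [Fintype Q] [DecidableEq Q] [Fintype B] [DecidableEq B]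

theorem exists_good_pi (L : C → P → Q) (Θ : SimpleGraph B) (h m : ℕ) (hG : Gadget B Θ h m)
    (hlin : ∀ g g' : P, ∀ c c' : C, g ≠ g' → L c g = L c g' → L c' g = L c' g' → c = c')
    {κ : Type*} [Fintype κ] (nb0 : P → κ → P)
    (hnb : ∀ g g' c, L c g = L c g' → ∃ k, nb0 g k = g')
    (hC : 0 < Fintype.card C)
    (hnum : ∀ s, 2 * Fintype.card C ≤ s →
      (Fintype.card P * Fintype.card B) * (Fintype.card κ * Fintype.card B) ^ (2 * (s - 1)) *
        2 ^ s ≤ 2 ^ (22 * (Fintype.card C * s))) :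
    ∃ π : P × C → Equiv.Perm B, ∀ J : Finset (P × B), ¬ viol L m h π J := by
  by_contra hcon
  push Not at hcon
  set Ω := Fintype.card (P × C → Equiv.Perm B) with hΩ
  set n := Fintype.card (P × B) with hn
  set r := Fintype.card C with hr
  set nbV : P × B → κ × B → P × B := fun u k => (nb0 u.1 k.1, k.2) with hnbV
  set T : (s : ℕ) → (P × B) × (Fin (2 * (s - 1)) → κ × B) → Finset (P × C → Equiv.Perm B) :=
    fun s vf => univ.filter (fun π => viol L m h π (dec nbV vf.1 (List.ofFn vf.2)) ∧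
      (dec nbV vf.1 (List.ofFn vf.2)).card = s) with hT
  have hcover : (univ : Finset (P × C → Equiv.Perm B)) ⊆
      (Icc (2 * r) n).biUnion (fun s => univ.biUnion (fun vf => T s vf)) := by
    intro π _
    obtain ⟨J0, hJ0⟩ := hcon π
    obtain ⟨J, hJ, hJmin⟩ := Finset.exists_min_image
      (univ.filter (fun J : Finset (P × B) => viol L m h π J)) (fun J => J.card)
      ⟨J0, by rw [mem_filter]; exact ⟨mem_univ _, hJ0⟩⟩
    rw [mem_filter] at hJ
    have hmin : ∀ J', viol L m h π J' → J.card ≤ J'.card := by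
      intro J' hJ'
      exact hJmin J' (by rw [mem_filter]; exact ⟨mem_univ _, hJ'⟩)
    have hlarge := viol_large L m h hG.h3 π hlin J hJ.2
    have hJn : J.card ≤ n := card_le_univ _
    have hJne : J.Nonempty := card_pos.1 (by omega)
    obtain ⟨v, l, hl, hd⟩ := dec_of_connected nbV J hJne (by
      intro S hSJ hS hne
      obtain ⟨u, hu, w, hw, hwS, c, hc⟩ := viol_conn L m h π J hJ.2 hmin S hSJ hS hne
      refine ⟨u, hu, w, hw, hwS, ?_, ?_⟩
      · obtain ⟨k, hk⟩ := hnb u.1 w.1 c hc
        exact ⟨(k, w.2), by rw [hnbV]; exact Prod.ext hk rfl⟩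
      · obtain ⟨k, hk⟩ := hnb w.1 u.1 c hc.symm
        exact ⟨(k, u.2), by rw [hnbV]; exact Prod.ext hk rfl⟩)
    rw [mem_biUnion]
    refine ⟨J.card, by rw [mem_Icc]; exact ⟨hlarge, hJn⟩, ?_⟩
    rw [mem_biUnion]
    refine ⟨(v, fun i => l.get (i.cast hl.symm)), mem_univ _, ?_⟩
    have hof : List.ofFn (fun i : Fin (2 * (J.card - 1)) => l.get (i.cast hl.symm)) = l := by
      apply List.ext_get
      · rw [List.length_ofFn, hl]
      · intro i h1 h2
        simp
    rw [hT]
    simp only [mem_filter, mem_univ, true_and]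
    rw [hof, hd]
    exact ⟨hJ.2, rfl⟩
  have hT1 : ∀ s vf, ((T s vf).card : ℝ) ≤ (Ω : ℝ) / 2 ^ (22 * (r * s)) := by
    intro s vf
    rw [le_div_iff₀ (by positivity)]
    by_cases hs : (dec nbV vf.1 (List.ofFn vf.2)).card = s
    · have h3 := count3 L Θ h m hG (dec nbV vf.1 (List.ofFn vf.2))
      rw [hs] at h3
      have h4 : (T s vf).card ≤ (univ.filter (fun π : P × C → Equiv.Perm B =>
          viol L m h π (dec nbV vf.1 (List.ofFn vf.2)))).card := by
        apply card_le_card
        intro π hπ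
        rw [hT] at hπ
        simp only [mem_filter, mem_univ, true_and] at hπ ⊢
        exact hπ.1
      have h5 := (Nat.mul_le_mul_right (2 ^ (22 * (r * s))) h4).trans h3
      exact_mod_cast h5
    · have : T s vf = ∅ := by
        rw [hT]
        simp only [filter_eq_empty_iff, mem_univ, forall_const]
        intro π hπ
        exact hs hπ.2
      rw [this]
      simp
  have hcard : ∀ s, (Fintype.card ((P × B) × (Fin (2 * (s - 1)) → κ × B)) : ℝ)
      = ((Fintype.card P * Fintype.card B) * (Fintype.card κ * Fintype.card B) ^ (2 * (s - 1)) : ℕ) := by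
    intro s
    rw [Fintype.card_prod, Fintype.card_prod, Fintype.card_fun, Fintype.card_prod, Fintype.card_fin]
  have hΩpos : (0 : ℝ) < Ω := by
    rw [hΩ]
    exact_mod_cast Fintype.card_pos
  have hsum : (Ω : ℝ) ≤ ∑ s ∈ Icc (2 * r) n, (Ω : ℝ) * (1 / 2) ^ s := by
    have c1 : Ω ≤ ∑ s ∈ Icc (2 * r) n, ∑ vf : (P × B) × (Fin (2 * (s - 1)) → κ × B),
        (T s vf).card := by
      calc Ω = (univ : Finset (P × C → Equiv.Perm B)).card := by rw [card_univ]
        _ ≤ _ := card_le_card hcover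
        _ ≤ _ := card_biUnion_le
        _ ≤ _ := by
          apply sum_le_sum
          intro s _
          exact card_biUnion_le
    have c2 : (Ω : ℝ) ≤ ∑ s ∈ Icc (2 * r) n, ∑ vf : (P × B) × (Fin (2 * (s - 1)) → κ × B),
        ((T s vf).card : ℝ) := by exact_mod_cast c1
    refine c2.trans ?_
    apply sum_le_sum
    intro s hs
    rw [mem_Icc] at hs
    calc ∑ vf : (P × B) × (Fin (2 * (s - 1)) → κ × B), ((T s vf).card : ℝ)
        ≤ ∑ vf : (P × B) × (Fin (2 * (s - 1)) → κ × B), (Ω : ℝ) / 2 ^ (22 * (r * s)) :=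
          sum_le_sum (fun vf _ => hT1 s vf)
      _ = (Fintype.card ((P × B) × (Fin (2 * (s - 1)) → κ × B)) : ℝ) *
            ((Ω : ℝ) / 2 ^ (22 * (r * s))) := by
          rw [sum_const, card_univ, nsmul_eq_mul]
      _ ≤ (Ω : ℝ) * (1 / 2) ^ s := by
          rw [hcard s]
          have h6 := hnum s hs.1
          have h7 : (((Fintype.card P * Fintype.card B) *
              (Fintype.card κ * Fintype.card B) ^ (2 * (s - 1)) : ℕ) : ℝ) * 2 ^ s
              ≤ 2 ^ (22 * (r * s)) := by
            exact_mod_cast h6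
          generalize (((Fintype.card P * Fintype.card B) *
              (Fintype.card κ * Fintype.card B) ^ (2 * (s - 1)) : ℕ) : ℝ) = X at h7 ⊢
          have hD : (0 : ℝ) < 2 ^ (22 * (r * s)) := by positivity
          have h2s : (0 : ℝ) < 2 ^ s := by positivity
          have e1 : X * ((Ω : ℝ) / 2 ^ (22 * (r * s)))
              = (Ω : ℝ) * (1 / 2) ^ s * (X * 2 ^ s / 2 ^ (22 * (r * s))) := by
            rw [one_div, inv_pow]
            field_simp
          rw [e1]
          have e2 : X * 2 ^ s / 2 ^ (22 * (r * s)) ≤ 1 := by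
            rw [div_le_one hD]
            exact h7
          have e3 : (0 : ℝ) ≤ (Ω : ℝ) * (1 / 2) ^ s := by positivity
          calc _ ≤ (Ω : ℝ) * (1 / 2) ^ s * 1 := mul_le_mul_of_nonneg_left e2 e3
            _ = _ := mul_one _
  have hlt : ∑ s ∈ Icc (2 * r) n, (Ω : ℝ) * (1 / 2) ^ s < Ω := by
    calc ∑ s ∈ Icc (2 * r) n, (Ω : ℝ) * (1 / 2) ^ s
        ≤ ∑ s ∈ Icc 1 n, (Ω : ℝ) * (1 / 2) ^ s := by
          apply sum_le_sum_of_subset_of_nonneg
          · intro s hs
            rw [mem_Icc] at hs ⊢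
            omega
          · intro s _ _
            positivity
      _ = (Ω : ℝ) * (1 - (1 / 2) ^ n) := by rw [← mul_sum, geom_Icc]
      _ < Ω := by
          have : (0 : ℝ) < (1 / 2) ^ n := by positivity
          nlinarith
  linarith

end Pool.Agent.Work.MP_71927a_co
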