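import Mathlib
import Pool.Agent.Work.MP_71927a_co.Union

set_option autoImplicit false
set_option linter.unusedSectionVars false

namespace Pool.Agent.Work.MP_71927a_co

open Finset Classical

variable {P C Q B : Type*} [Fintype P] [DecidableEq P] [Fintype C] [DecidableEq C]
  [Fintype Q] [DecidableEq Q] [Fintype B] [DecidableEq B]

/-- The big graph. -/
def bigG (L : C → P → Q) (Θ : SimpleGraph B) (π : P × C → Equiv.Perm B) :
    SimpleGraph (P × B) where
  Adj u v := u.1 ≠ v.1 ∧ ∃ c, L c u.1 = L c v.1 ∧ Θ.Adj (π (u.1, c) u.2) (π (v.1, c) v.2)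
  symm := ⟨fun _ _ h => ⟨h.1.symm, h.2.imp fun _ hc => ⟨hc.1.symm, hc.2.symm⟩⟩⟩
  loopless := ⟨fun _ h => h.1 rfl⟩

theorem bigG_adj (L : C → P → Q) (Θ : SimpleGraph B) (π : P × C → Equiv.Perm B) (u v : P × B) :
    (bigG L Θ π).Adj u v ↔
      (u.1 ≠ v.1 ∧ ∃ c, L c u.1 = L c v.1 ∧ Θ.Adj (π (u.1, c) u.2) (π (v.1, c) v.2)) := Iff.rfl

theorem bigG_cliqueFree (L : C → P → Q) (Θ : SimpleGraph B) (π : P × C → Equiv.Perm B)
    (hΘ : Θ.CliqueFree 3)
    (htri : ∀ g g' g'' : P, ∀ c c' c'' : C, g ≠ g' → g ≠ g'' → g' ≠ g'' →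
      L c g = L c g' → L c' g = L c' g'' → L c'' g' = L c'' g'' → c = c' ∧ c = c'') :
    (bigG L Θ π).CliqueFree 3 := by
  apply cliqueFree_three_of
  rintro u v w ⟨huv, c, hc, h1⟩ ⟨huw, c', hc', h2⟩ ⟨hvw, c'', hc'', h3⟩
  obtain ⟨rfl, rfl⟩ := htri u.1 v.1 w.1 c c' c'' huv huw hvw hc hc' hc''
  apply hΘ {π (u.1, c) u.2, π (v.1, c) v.2, π (w.1, c) w.2}
  rw [SimpleGraph.is3Clique_iff]
  exact ⟨_, _, _, h1, h2, h3, rfl⟩

/-- independence of a finite set -/
def Indep {V : Type*} (G : SimpleGraph V) (I : Finset V) : Prop :=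
  ∀ u ∈ I, ∀ v ∈ I, ¬ G.Adj u v

theorem lab_small (L : C → P → Q) (Θ : SimpleGraph B) (h m : ℕ) (hG : Gadget B Θ h m)
    (π : P × C → Equiv.Perm B) (J : Finset (P × B)) (hJ : Indep (bigG L Θ π) J)
    (hfib : ∀ g, (fib J g).card < h) (ℓ : C × Q) : (lab L π J ℓ).card < 3 * h := by
  by_contra hcon
  push Not at hcon
  set labR : Finset P → Finset B := fun R =>
    ((Jl L J ℓ).filter (fun u => u.1 ∈ R)).image (fun u => π (u.1, ℓ.1) u.2) with hlabR
  have hex : ((univ : Finset (Finset P)).filter (fun R => h ≤ (labR R).card)).Nonempty := by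
    refine ⟨univ, ?_⟩
    rw [mem_filter]
    refine ⟨mem_univ _, ?_⟩
    have : labR univ = lab L π J ℓ := by
      rw [hlabR, lab]
      simp
    rw [this]
    omega
  obtain ⟨R, hR, hRmin⟩ := Finset.exists_min_image _ (fun R => R.card) hex
  rw [mem_filter] at hR
  have hRne : R.Nonempty := by
    rw [nonempty_iff_ne_empty]
    intro hRe
    have h1 := hR.2
    rw [hRe] at h1
    have : labR ∅ = ∅ := by rw [hlabR]; simp
    rw [this, card_empty] at h1
    have := hG.h4
    omega
  obtain ⟨g, hg⟩ := hRne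
  have h1 : (labR (R.erase g)).card < h := by
    by_contra hc
    push Not at hc
    have := hRmin (R.erase g) (by rw [mem_filter]; exact ⟨mem_univ _, hc⟩)
    rw [card_erase_of_mem hg] at this
    have : 0 < R.card := card_pos.2 ⟨g, hg⟩
    omega
  have h2 : (labR R).card ≤ (labR (R.erase g)).card + (fib J g).card := by
    have hsub : labR R ⊆ labR (R.erase g) ∪ (fib J g).image (fun i => π (g, ℓ.1) i) := by
      intro x hx
      rw [hlabR] at hx
      simp only [mem_image, mem_filter] at hx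
      obtain ⟨u, ⟨hu, huR⟩, rfl⟩ := hx
      rw [mem_union]
      by_cases hug : u.1 = g
      · right
        rw [mem_image]
        refine ⟨u.2, ?_, by rw [hug]⟩
        rw [fib, mem_filter]
        refine ⟨mem_univ _, ?_⟩
        rw [← hug]
        exact ((mem_Jl _ _ _ _).1 hu).1
      · left
        rw [hlabR]
        simp only [mem_image, mem_filter]
        exact ⟨u, ⟨hu, mem_erase.2 ⟨hug, huR⟩⟩, rfl⟩
    refine (card_le_card hsub).trans ((card_union_le _ _).trans ?_)
    exact Nat.add_le_add_left card_image_le _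
  have h3 : (labR R).card < 2 * h := by
    have := hfib g
    omega
  have h4 : (lab L π J ℓ).card ≤ (labR R).card + (labR Rᶜ).card := by
    have hsub : lab L π J ℓ ⊆ labR R ∪ labR Rᶜ := by
      intro x hx
      rw [lab, mem_image] at hx
      obtain ⟨u, hu, rfl⟩ := hx
      rw [mem_union, hlabR]
      simp only [mem_image, mem_filter, mem_compl]
      by_cases huR : u.1 ∈ R
      · exact Or.inl ⟨u, ⟨hu, huR⟩, rfl⟩
      · exact Or.inr ⟨u, ⟨hu, huR⟩, rfl⟩
    exact (card_le_card hsub).trans (card_union_le _ _)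
  obtain ⟨x, hx, y, hy, hxy⟩ := hG.hole (labR R) (labR Rᶜ) hR.2 (by omega)
  rw [hlabR] at hx hy
  simp only [mem_image, mem_filter, mem_compl] at hx hy
  obtain ⟨u, ⟨hu, huR⟩, rfl⟩ := hx
  obtain ⟨v, ⟨hv, hvR⟩, rfl⟩ := hy
  rw [mem_Jl] at hu hv
  apply hJ u hu.1 v hv.1
  rw [bigG_adj]
  refine ⟨?_, ℓ.1, hu.2.trans hv.2.symm, hxy⟩
  intro huv
  rw [huv] at huR
  exact hvR huR

/-- all lines -/
def allLines (L : C → P → Q) : Finset (C × Q) :=
  (univ : Finset (C × P)).image (fun t => (t.1, L t.1 t.2))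

theorem lines_subset_all (L : C → P → Q) (J : Finset (P × B)) : lines L J ⊆ allLines L := by
  intro ℓ hℓ
  rw [mem_lines] at hℓ
  obtain ⟨u, _, hu⟩ := hℓ
  rw [allLines, mem_image]
  exact ⟨(ℓ.1, u.1), mem_univ _, Prod.ext rfl hu⟩

theorem sum_allLines (L : C → P → Q) (J : Finset (P × B)) :
    ∑ ℓ ∈ allLines L, (Jl L J ℓ).card = Fintype.card C * J.card := by
  rw [← sum_lines L J]
  symm
  apply sum_subset (lines_subset_all L J)
  intro ℓ _ hℓ
  rw [card_eq_zero, eq_empty_iff_forall_notMem]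
  intro u hu
  rw [mem_Jl] at hu
  exact hℓ ((mem_lines _ _ _).2 ⟨u, hu⟩)

theorem card_allLines (L : C → P → Q) (a : ℕ) (ha : ∀ c, (univ.image (L c)).card = a) :
    (allLines L).card = Fintype.card C * a := by
  have h := Finset.card_eq_sum_card_fiberwise (s := allLines L) (t := (univ : Finset C))
    (f := fun ℓ => ℓ.1) (fun ℓ _ => mem_coe.2 (mem_univ _))
  rw [h]
  have : ∀ c ∈ (univ : Finset C), ((allLines L).filter (fun ℓ => ℓ.1 = c)).card = a := by
    intro c _
    rw [← ha c]
    apply card_bij (fun ℓ _ => ℓ.2)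
    · intro ℓ hℓ
      rw [mem_filter, allLines, mem_image] at hℓ
      obtain ⟨⟨t, _, rfl⟩, h2⟩ := hℓ
      rw [mem_image]
      refine ⟨t.2, mem_univ _, ?_⟩
      simp only at h2
      rw [← h2]
    · intro ℓ hℓ ℓ' hℓ' he
      rw [mem_filter] at hℓ hℓ'
      exact Prod.ext (hℓ.2.trans hℓ'.2.symm) he
    · intro x hx
      rw [mem_image] at hx
      obtain ⟨g, _, rfl⟩ := hx
      refine ⟨(c, L c g), ?_, rfl⟩
      rw [mem_filter, allLines, mem_image]
      exact ⟨⟨(c, g), mem_univ _, rfl⟩, rfl⟩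
  rw [sum_congr rfl this, sum_const, card_univ, smul_eq_mul]

theorem upper (L : C → P → Q) (Θ : SimpleGraph B) (h m : ℕ) (hG : Gadget B Θ h m)
    (π : P × C → Equiv.Perm B) (hgood : ∀ J : Finset (P × B), ¬ viol L m h π J)
    (a : ℕ) (ha : ∀ c, (univ.image (L c)).card = a) (hC : 0 < Fintype.card C)
    (I : Finset (P × B)) (hI : Indep (bigG L Θ π) I) : I.card ≤ a * Fintype.card B := by
  set J := I.filter (fun u => ¬ h ≤ (fib I u.1).card) with hJdef
  set K := I.filter (fun u => h ≤ (fib I u.1).card) with hKdef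
  have hIJK : K.card + J.card = I.card := card_filter_add_card_filter_not _
  have hJI : J ⊆ I := filter_subset _ _
  have hKI : K ⊆ I := filter_subset _ _
  have hJind : Indep (bigG L Θ π) J := fun u hu v hv => hI u (hJI hu) v (hJI hv)
  have hfib : ∀ g, (fib J g).card < h := by
    intro g
    rcases (fib J g).eq_empty_or_nonempty with he | ⟨i, hi⟩
    · rw [he, card_empty]; exact hG.h4
    · rw [fib, mem_filter] at hi
      have h2 := (mem_filter.1 hi.2).2
      simp only at h2
      have h3 : (fib J g).card ≤ (fib I g).card := by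
        apply card_le_card
        intro j hj
        rw [fib, mem_filter] at hj ⊢
        exact ⟨mem_univ _, hJI hj.2⟩
      omega
  -- (1)
  have h1 : ∀ ℓ ∈ allLines L, (Jl L K ℓ).card + (nbhd Θ (lab L π J ℓ)).card ≤ Fintype.card B := by
    intro ℓ _
    rcases (Jl L K ℓ).eq_empty_or_nonempty with he | ⟨u0, hu0⟩
    · rw [he, card_empty, zero_add]
      exact card_le_univ _
    · rw [mem_Jl] at hu0
      have hbig0 : h ≤ (fib I u0.1).card := (mem_filter.1 hu0.1).2
      have hsame : ∀ v ∈ Jl L K ℓ, v.1 = u0.1 := by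
        intro v hv
        rw [mem_Jl] at hv
        by_contra hne
        have hbigv : h ≤ (fib I v.1).card := (mem_filter.1 hv.1).2
        obtain ⟨x, hx, y, hy, hxy⟩ := hG.hole
          ((fib I u0.1).image (fun i => π (u0.1, ℓ.1) i))
          ((fib I v.1).image (fun i => π (v.1, ℓ.1) i))
          (by rw [card_image_of_injective _ (π (u0.1, ℓ.1)).injective]; exact hbig0)
          (by rw [card_image_of_injective _ (π (v.1, ℓ.1)).injective]; exact hbigv)
        rw [mem_image] at hx hy
        obtain ⟨i, hi, rfl⟩ := hx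
        obtain ⟨j, hj, rfl⟩ := hy
        rw [fib, mem_filter] at hi hj
        apply hI (u0.1, i) hi.2 (v.1, j) hj.2
        rw [bigG_adj]
        exact ⟨fun hh => hne hh.symm, ℓ.1, hu0.2.trans hv.2.symm, hxy⟩
      have hc1 : (Jl L K ℓ).card ≤ ((fib I u0.1).image (fun i => π (u0.1, ℓ.1) i)).card := by
        apply card_le_card_of_injOn (fun v => π (u0.1, ℓ.1) v.2)
        · intro v hv
          have hv' : v ∈ Jl L K ℓ := hv
          have e := hsame v hv'
          rw [mem_Jl] at hv'
          have : π (u0.1, ℓ.1) v.2 ∈ (fib I u0.1).image (fun i => π (u0.1, ℓ.1) i) := by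
            rw [mem_image]
            refine ⟨v.2, ?_, rfl⟩
            rw [fib, mem_filter]
            refine ⟨mem_univ _, ?_⟩
            rw [← e]
            exact hKI hv'.1
          exact this
        · intro v hv w hw hvw
          have hv' : v ∈ Jl L K ℓ := hv
          have hw' : w ∈ Jl L K ℓ := hw
          have : v.2 = w.2 := (π (u0.1, ℓ.1)).injective hvw
          exact Prod.ext ((hsame v hv').trans (hsame w hw').symm) this
      have hdisj : Disjoint ((fib I u0.1).image (fun i => π (u0.1, ℓ.1) i))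
          (nbhd Θ (lab L π J ℓ)) := by
        rw [disjoint_left]
        intro x hx hx2
        rw [mem_image] at hx
        obtain ⟨i, hi, rfl⟩ := hx
        rw [fib, mem_filter] at hi
        rw [nbhd, mem_filter] at hx2
        obtain ⟨_, y, hy, hadj⟩ := hx2
        rw [lab, mem_image] at hy
        obtain ⟨v, hv, rfl⟩ := hy
        rw [mem_Jl] at hv
        have hvnb := (mem_filter.1 hv.1).2
        have hne : v.1 ≠ u0.1 := by
          intro hh
          rw [hh] at hvnb
          exact hvnb hbig0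
        apply hI v (hJI hv.1) (u0.1, i) hi.2
        rw [bigG_adj]
        exact ⟨hne, ℓ.1, hv.2.trans hu0.2.symm, hadj⟩
      calc (Jl L K ℓ).card + (nbhd Θ (lab L π J ℓ)).card
          ≤ ((fib I u0.1).image (fun i => π (u0.1, ℓ.1) i)).card +
            (nbhd Θ (lab L π J ℓ)).card := Nat.add_le_add_right hc1 _
        _ = (((fib I u0.1).image (fun i => π (u0.1, ℓ.1) i)) ∪ (nbhd Θ (lab L π J ℓ))).card :=
            (card_union_of_disjoint hdisj).symm
        _ ≤ Fintype.card B := card_le_univ _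
  have h2 : Fintype.card C * K.card + ∑ ℓ ∈ allLines L, (nbhd Θ (lab L π J ℓ)).card
      ≤ Fintype.card C * (a * Fintype.card B) := by
    rw [← sum_allLines L K, ← sum_add_distrib]
    refine (sum_le_sum h1).trans ?_
    rw [sum_const, card_allLines L a ha, smul_eq_mul, mul_assoc]
  have h3 : Fintype.card C * J.card ≤ ∑ ℓ ∈ allLines L, (nbhd Θ (lab L π J ℓ)).card := by
    have g1 : ∑ ℓ ∈ (lines L J).filter (fun ℓ => ¬ bad L m h π J ℓ), 2 * (Jl L J ℓ).card
        ≤ ∑ ℓ ∈ allLines L, (nbhd Θ (lab L π J ℓ)).card := by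
      refine le_trans ?_ (sum_le_sum_of_subset
        ((filter_subset (fun ℓ => ¬ bad L m h π J ℓ) _).trans (lines_subset_all L J)))
      apply sum_le_sum
      intro ℓ hℓ
      rw [mem_filter] at hℓ
      have hs := lab_small L Θ h m hG π J hJind hfib ℓ
      have hnb : ¬ (m * (lab L π J ℓ).card ≤ (Jl L J ℓ).card) := by
        intro hh
        exact hℓ.2 ⟨hh, hs⟩
      have := hG.expd (lab L π J ℓ) hs
      omega
    have g2 : ∑ ℓ ∈ (lines L J).filter (fun ℓ => bad L m h π J ℓ), (Jl L J ℓ).card +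
        ∑ ℓ ∈ (lines L J).filter (fun ℓ => ¬ bad L m h π J ℓ), (Jl L J ℓ).card
        = Fintype.card C * J.card := by
      rw [← sum_lines L J]
      exact sum_filter_add_sum_filter_not _ _ _
    have g3 := hgood J
    unfold viol at g3
    push Not at g3
    rw [← mul_sum] at g1
    omega
  have h4 : Fintype.card C * I.card ≤ Fintype.card C * (a * Fintype.card B) := by
    rw [← hIJK, mul_add]
    omega
  exact Nat.le_of_mul_le_mul_left h4 hC

end Pool.Agent.Work.MP_71927a_co
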