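import Mathlib
import Pool.Agent.Work.MP_71927a_co.Upper

set_option autoImplicit false
set_option linter.unusedSectionVars false

namespace Pool.Agent.Work.MP_71927a_co

open Finset Classical

section factorial

theorem fact_four (v : ℕ) : v ^ v ≤ v.factorial * 4 ^ v := by
  have h1 : (v : ℝ) ^ v / (v.factorial : ℝ) ≤ Real.exp v :=
    Real.pow_div_factorial_le_exp (v : ℝ) (by positivity) v
  have h2 : Real.exp (v : ℝ) ≤ 4 ^ v := by
    have : Real.exp (v : ℝ) = Real.exp 1 ^ v := by
      rw [← Real.exp_nat_mul, mul_one]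
    rw [this]
    apply pow_le_pow_left₀ (Real.exp_pos _).le
    have := Real.exp_one_lt_d9
    linarith
  have h3 : (v : ℝ) ^ v ≤ (v.factorial : ℝ) * 4 ^ v := by
    have hpos : (0 : ℝ) < v.factorial := by exact_mod_cast Nat.factorial_pos v
    rw [div_le_iff₀ hpos] at h1
    calc (v : ℝ) ^ v ≤ Real.exp v * v.factorial := h1
      _ ≤ 4 ^ v * v.factorial := mul_le_mul_of_nonneg_right h2 hpos.le
      _ = _ := mul_comm _ _
  exact_mod_cast h3

/-- number of functions injective on a given set -/
theorem count_inj {A : Type*} [Fintype A] [DecidableEq A] (S : Finset A) (v : ℕ)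
    (hS : S.card = v) :
    v ^ (Fintype.card A) ≤
      (univ.filter (fun f : A → Fin v => Set.InjOn f S)).card * 4 ^ v := by
  have hcS : Fintype.card S = v := by rw [Fintype.card_coe, hS]
  set e : S ≃ Fin v := Fintype.equivFinOfCardEq hcS with he
  set F : Equiv.Perm (Fin v) × ({x // x ∉ S} → Fin v) → (A → Fin v) :=
    fun p x => if hx : x ∈ S then p.1 (e ⟨x, hx⟩) else p.2 ⟨x, hx⟩ with hF
  have hFinj : Function.Injective F := by
    intro p p' hpp
    apply Prod.ext
    · apply Equiv.ext
      intro i
      have := congrFun hpp (e.symm i).1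
      simp only [hF, (e.symm i).2, dif_pos, Subtype.coe_eta, Equiv.apply_symm_apply] at this
      exact this
    · funext x
      have := congrFun hpp x.1
      simp only [hF, x.2, dif_neg, not_false_iff, Subtype.coe_eta] at this
      exact this
  have hmem : ∀ p, F p ∈ univ.filter (fun f : A → Fin v => Set.InjOn f S) := by
    intro p
    rw [mem_filter]
    refine ⟨mem_univ _, ?_⟩
    intro x hx y hy hxy
    have hx' : x ∈ S := hx
    have hy' : y ∈ S := hy
    simp only [hF, hx', hy', dif_pos] at hxy
    have h1 := p.1.injective hxy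
    have h2 := e.injective h1
    exact congrArg Subtype.val h2
  have hcard : Fintype.card (Equiv.Perm (Fin v) × ({x // x ∉ S} → Fin v)) ≤
      (univ.filter (fun f : A → Fin v => Set.InjOn f S)).card := by
    rw [← card_univ]
    exact card_le_card_of_injOn F (fun p _ => hmem p) (fun p _ p' _ h => hFinj h)
  have hc2 : Fintype.card {x // x ∉ S} = Fintype.card A - v := by
    rw [Fintype.card_subtype_compl, Fintype.card_coe, hS]
  rw [Fintype.card_prod, Fintype.card_perm, Fintype.card_fun, Fintype.card_fin, hc2] at hcard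
  have hvA : v ≤ Fintype.card A := by rw [← hS]; exact card_le_univ _
  calc v ^ Fintype.card A = v ^ v * v ^ (Fintype.card A - v) := by
        rw [← pow_add]; congr 1; omega
    _ ≤ (v.factorial * 4 ^ v) * v ^ (Fintype.card A - v) := Nat.mul_le_mul_right _ (fact_four v)
    _ = (v.factorial * v ^ (Fintype.card A - v)) * 4 ^ v := by ring
    _ ≤ _ := Nat.mul_le_mul_right _ hcard

end factorial

section geom

variable {n q : ℕ} [NeZero q]

/-- columns -/
abbrev Col (n q : ℕ) := Fin n → ZMod q
/-- points -/
abbrev Pt (n q : ℕ) := Fin (n + 1) → ZMod q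

/-- the part of `X` on a column -/
def colset (X : Finset (Pt n q)) (p : Fin (n + 1) × Col n q) : Finset (ZMod q) :=
  univ.filter (fun x => (Fin.insertNth p.1 x p.2 : Pt n q) ∈ X)

theorem mem_colset (X : Finset (Pt n q)) (p : Fin (n + 1) × Col n q) (x : ZMod q) :
    x ∈ colset X p ↔ (Fin.insertNth p.1 x p.2 : Pt n q) ∈ X := by
  rw [colset, mem_filter]
  simp

theorem card_eq_sum_colset (X : Finset (Pt n q)) (c : Fin (n + 1)) :
    X.card = ∑ col : Col n q, (colset X (c, col)).card := by
  have h := Finset.card_eq_sum_card_fiberwise (s := X) (t := (univ : Finset (Col n q)))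
    (f := fun g => Fin.removeNth c g) (fun _ _ => mem_coe.2 (mem_univ _))
  rw [h]
  apply sum_congr rfl
  intro col _
  apply card_bij' (fun g _ => g c) (fun x _ => (Fin.insertNth c x col : Pt n q))
  · intro g hg
    rw [mem_filter] at hg
    rw [mem_colset, ← hg.2]
    simp only [Fin.insertNth_self_removeNth]
    exact hg.1
  · intro x hx
    rw [mem_colset] at hx
    rw [mem_filter]
    exact ⟨hx, by simp⟩
  · intro g hg
    rw [mem_filter] at hg
    rw [← hg.2]
    simp
  · intro x _
    simp

theorem sum_colset (X : Finset (Pt n q)) :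
    ∑ p : Fin (n + 1) × Col n q, (colset X p).card = (n + 1) * X.card := by
  rw [Fintype.sum_prod_type]
  rw [sum_congr rfl (fun c _ => (card_eq_sum_colset X c).symm)]
  rw [sum_const, card_univ, Fintype.card_fin, smul_eq_mul]

/-- the diagonal -/
def X0 (n q : ℕ) [NeZero q] : Finset (Pt n q) := univ.filter (fun g => ∑ i, g i = 0)

theorem colset_X0 (p : Fin (n + 1) × Col n q) : colset (X0 n q) p = {-∑ i, p.2 i} := by
  ext x
  rw [mem_colset, X0, mem_filter, mem_singleton, Fin.sum_univ_succAbove _ p.1]
  simp only [mem_univ, true_and, Fin.insertNth_apply_same, Fin.insertNth_apply_succAbove]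
  exact eq_neg_iff_add_eq_zero.symm

theorem card_X0 : (X0 n q).card = q ^ n := by
  rw [card_eq_sum_colset (X0 n q) 0]
  rw [sum_congr rfl (fun col _ => by rw [colset_X0, card_singleton])]
  rw [sum_const, card_univ, Fintype.card_fun, Fintype.card_fin, ZMod.card, smul_eq_mul, mul_one]

theorem card_Pt : Fintype.card (Pt n q) = q ^ (n + 1) := by
  rw [Fintype.card_fun, Fintype.card_fin, ZMod.card]

/-- the labelling makes `X` exact -/
def Good (w : Fin (n + 1) × Col n q → Fin (q + 1))
    (lam : ∀ p : Fin (n + 1) × Col n q, ZMod q → Fin (w p).val) (X : Finset (Pt n q)) : Prop :=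
  ∀ p, Set.InjOn (lam p) (colset X p)

/-- the class of sets with given column sums -/
def XX (M : ℕ) (w : Fin (n + 1) × Col n q → Fin (q + 1)) : Finset (Finset (Pt n q)) :=
  univ.filter (fun X => (X0 n q ⊆ X ∧ X.card = (M + 1) * q ^ n) ∧
    ∀ p, (colset X p).card = (w p).val)

theorem exists_labelling (M : ℕ) (w : Fin (n + 1) × Col n q → Fin (q + 1))
    (hw : ∀ p, 0 < (w p).val) :
    ∃ lam : (∀ p : Fin (n + 1) × Col n q, ZMod q → Fin (w p).val),
      (XX M w).card ≤ ((XX M w).filter (fun X => Good w lam X)).card *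
        4 ^ ((n + 1) * ((M + 1) * q ^ n)) := by
  have hne : Nonempty (∀ p : Fin (n + 1) × Col n q, ZMod q → Fin (w p).val) :=
    ⟨fun p _ => ⟨0, hw p⟩⟩
  set N := Fintype.card (∀ p : Fin (n + 1) × Col n q, ZMod q → Fin (w p).val) with hN
  have hNpos : 0 < N := Fintype.card_pos
  have hN2 : N = ∏ p, (w p).val ^ q := by
    rw [hN, Fintype.card_pi]
    apply prod_congr rfl
    intro p _
    rw [Fintype.card_fun, Fintype.card_fin, ZMod.card]
  set D := 4 ^ ((n + 1) * ((M + 1) * q ^ n)) with hD
  have h1 : ∀ X ∈ XX M w, N ≤ (univ.filter (fun lam : (∀ p : Fin (n + 1) × Col n q,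
      ZMod q → Fin (w p).val) => Good w lam X)).card * D := by
    intro X hX
    rw [XX, mem_filter] at hX
    obtain ⟨_, ⟨_, hXc⟩, hXw⟩ := hX
    have e1 : (univ.filter (fun lam : (∀ p : Fin (n + 1) × Col n q,
      ZMod q → Fin (w p).val) => Good w lam X))
        = Fintype.piFinset (fun p => univ.filter (fun f : ZMod q → Fin (w p).val =>
            Set.InjOn f (colset X p))) := by
      ext lam
      rw [mem_filter, Fintype.mem_piFinset]
      simp only [mem_univ, true_and, mem_filter, Good]
    rw [e1, Fintype.card_piFinset, hN2]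
    have e2 : D = ∏ p : Fin (n + 1) × Col n q, 4 ^ (w p).val := by
      rw [prod_pow_eq_pow_sum, hD]
      congr 1
      rw [sum_congr rfl (fun p _ => (hXw p).symm), sum_colset, hXc]
    rw [e2, ← prod_mul_distrib]
    apply prod_le_prod'
    intro p _
    have := count_inj (colset X p) (w p).val (hXw p)
    rw [ZMod.card] at this
    exact this
  by_contra hcon
  push Not at hcon
  have h2 : (XX M w).card * N ≤ (∑ lam : (∀ p : Fin (n + 1) × Col n q,
      ZMod q → Fin (w p).val), ((XX M w).filter (fun X => Good w lam X)).card) * D := by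
    have h := Finset.sum_card_bipartiteAbove_eq_sum_card_bipartiteBelow
      (s := XX M w) (t := (univ : Finset (∀ p : Fin (n + 1) × Col n q, ZMod q → Fin (w p).val)))
      (fun X lam => Good w lam X)
    simp only [Finset.bipartiteAbove, Finset.bipartiteBelow] at h
    rw [← h, sum_mul, ← smul_eq_mul, ← sum_const]
    exact sum_le_sum h1
  have h3 : (∑ lam : (∀ p : Fin (n + 1) × Col n q,
      ZMod q → Fin (w p).val), ((XX M w).filter (fun X => Good w lam X)).card) * D
      < (XX M w).card * N := by
    rw [sum_mul, hN, ← card_univ, mul_comm (XX M w).card, ← smul_eq_mul, ← sum_const]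
    apply sum_lt_sum_of_nonempty univ_nonempty
    intro lam _
    exact hcon lam
  omega

/-- the family before fixing the column sums -/
def YY (n q M : ℕ) [NeZero q] : Finset (Finset (Pt n q)) :=
  univ.filter (fun X => X0 n q ⊆ X ∧ X.card = (M + 1) * q ^ n)

theorem card_YY (M : ℕ) (hq : q = M ^ 2 + M + 1) (hM : 1 ≤ M) :
    M ^ (M * q ^ n) ≤ (YY n q M).card := by
  set m' := M * q ^ n with hm'
  have hqpos : 0 < q := Nat.pos_of_ne_zero (NeZero.ne q)
  have hm'pos : 0 < m' := by positivity
  have h1 : (powersetCard m' (X0 n q)ᶜ).card ≤ (YY n q M).card := by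
    apply card_le_card_of_injOn (fun Y => X0 n q ∪ Y)
    · intro Y hY
      have hY' : Y ∈ powersetCard m' (X0 n q)ᶜ := hY
      rw [mem_powersetCard] at hY'
      have hdisj : Disjoint (X0 n q) Y := by
        rw [disjoint_left]
        intro x hx hxY
        exact (mem_compl.1 (hY'.1 hxY)) hx
      have : X0 n q ∪ Y ∈ YY n q M := by
        rw [YY, mem_filter]
        refine ⟨mem_univ _, subset_union_left, ?_⟩
        rw [card_union_of_disjoint hdisj, card_X0, hY'.2, hm']
        ring
      exact this
    · intro Y hY Y' hY' he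
      have hY1 : Y ∈ powersetCard m' (X0 n q)ᶜ := hY
      have hY2 : Y' ∈ powersetCard m' (X0 n q)ᶜ := hY'
      rw [mem_powersetCard] at hY1 hY2
      simp only at he
      ext x
      have hx := Finset.ext_iff.1 he x
      rw [mem_union, mem_union] at hx
      constructor
      · intro h
        rcases hx.1 (Or.inr h) with h2 | h2
        · exact absurd h2 (mem_compl.1 (hY1.1 h))
        · exact h2
      · intro h
        rcases hx.2 (Or.inr h) with h2 | h2
        · exact absurd h2 (mem_compl.1 (hY2.1 h))
        · exact h2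
  rw [card_powersetCard, card_compl, card_X0, card_Pt] at h1
  refine le_trans ?_ h1
  have h2 : (q ^ (n + 1) - q ^ n + 1 - m') ^ m' ≤
      m'.factorial * (q ^ (n + 1) - q ^ n).choose m' := by
    have h2' := Nat.pow_le_choose m' (q ^ (n + 1) - q ^ n) (α := ℚ)
    have hpos : (0 : ℚ) < (m'.factorial : ℚ) := by exact_mod_cast Nat.factorial_pos m'
    rw [div_le_iff₀ hpos] at h2'
    rw [mul_comm m'.factorial]
    exact_mod_cast h2'
  have h3 : m'.factorial ≤ m' ^ m' := Nat.factorial_le_pow m'
  have h4 : M * m' ≤ q ^ (n + 1) - q ^ n + 1 - m' := by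
    have : q ^ (n + 1) = q ^ n + m' + M * m' := by
      rw [pow_succ, hm']
      nth_rewrite 2 [hq]
      ring
    omega
  have h5 : (M * m') ^ m' ≤ m' ^ m' * (q ^ (n + 1) - q ^ n).choose m' := by
    calc (M * m') ^ m' ≤ (q ^ (n + 1) - q ^ n + 1 - m') ^ m' := Nat.pow_le_pow_left h4 _
      _ ≤ m'.factorial * (q ^ (n + 1) - q ^ n).choose m' := h2
      _ ≤ _ := Nat.mul_le_mul_right _ h3
  rw [mul_pow, mul_comm] at h5
  exact Nat.le_of_mul_le_mul_left h5 (by positivity)

theorem exists_w (M : ℕ) : ∃ w : Fin (n + 1) × Col n q → Fin (q + 1),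
    (YY n q M).card ≤ (XX M w).card * (q + 1) ^ ((n + 1) * q ^ n) := by
  by_contra hcon
  push Not at hcon
  set N := (q + 1) ^ ((n + 1) * q ^ n) with hN
  have hNc : Fintype.card (Fin (n + 1) × Col n q → Fin (q + 1)) = N := by
    rw [Fintype.card_fun, Fintype.card_prod, Fintype.card_fin, Fintype.card_fin, Fintype.card_fun,
      Fintype.card_fin, ZMod.card]
  have hcle : ∀ (X : Finset (Pt n q)) (p : Fin (n + 1) × Col n q), (colset X p).card < q + 1 := by
    intro X p
    have : (colset X p).card ≤ Fintype.card (ZMod q) := card_le_univ _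
    rw [ZMod.card] at this
    omega
  have h1 : (YY n q M).card = ∑ w : Fin (n + 1) × Col n q → Fin (q + 1), (XX M w).card := by
    have h := Finset.card_eq_sum_card_fiberwise (s := YY n q M)
      (t := (univ : Finset (Fin (n + 1) × Col n q → Fin (q + 1))))
      (f := fun X p => ⟨(colset X p).card, hcle X p⟩) (fun _ _ => mem_coe.2 (mem_univ _))
    rw [h]
    apply sum_congr rfl
    intro w _
    congr 1
    ext X
    rw [XX, YY, mem_filter, mem_filter, mem_filter]
    simp only [mem_univ, true_and]
    constructor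
    · rintro ⟨h1, h2⟩
      refine ⟨h1, ?_⟩
      intro p
      rw [← h2]
    · rintro ⟨h1, h2⟩
      refine ⟨h1, ?_⟩
      funext p
      apply Fin.ext
      exact h2 p
  have h2 : N * (YY n q M).card < N * (YY n q M).card := by
    calc N * (YY n q M).card = ∑ w : Fin (n + 1) × Col n q → Fin (q + 1), (XX M w).card * N := by
          rw [h1, mul_comm, sum_mul]
      _ < ∑ w : Fin (n + 1) × Col n q → Fin (q + 1), (YY n q M).card := by
          apply sum_lt_sum_of_nonempty univ_nonempty
          intro w _
          exact hcon w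
      _ = N * (YY n q M).card := by
          rw [sum_const, card_univ, hNc, smul_eq_mul]
  omega

/-- the lines -/
def LL (w : Fin (n + 1) × Col n q → Fin (q + 1))
    (lam : ∀ p : Fin (n + 1) × Col n q, ZMod q → Fin (w p).val) :
    Fin (n + 1) → Pt n q → Col n q × Fin (q + 1) :=
  fun c g => (Fin.removeNth c g,
    Fin.castLE (w (c, Fin.removeNth c g)).isLt.le (lam (c, Fin.removeNth c g) (g c)))

variable (w : Fin (n + 1) × Col n q → Fin (q + 1))
  (lam : ∀ p : Fin (n + 1) × Col n q, ZMod q → Fin (w p).val)

theorem LL_eq (c : Fin (n + 1)) (g : Pt n q) (col : Col n q) (x : ZMod q)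
    (h1 : Fin.removeNth c g = col) (h2 : g c = x) :
    LL w lam c g = (col, Fin.castLE (w (c, col)).isLt.le (lam (c, col) x)) := by
  subst h1
  subst h2
  rfl

theorem LL_removeNth {c : Fin (n + 1)} {g g' : Pt n q} (h : LL w lam c g = LL w lam c g') :
    Fin.removeNth c g = Fin.removeNth c g' := (Prod.ext_iff.1 h).1

theorem eq_of_removeNth {c : Fin (n + 1)} {g g' : Pt n q}
    (h : Fin.removeNth c g = Fin.removeNth c g') {i : Fin (n + 1)} (hi : i ≠ c) : g i = g' i := by
  obtain ⟨j, rfl⟩ := Fin.exists_succAbove_eq hi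
  exact congrFun h j

theorem ne_at {c : Fin (n + 1)} {g g' : Pt n q} (hne : g ≠ g')
    (h : Fin.removeNth c g = Fin.removeNth c g') : g c ≠ g' c := by
  intro he
  apply hne
  funext i
  by_cases hi : i = c
  · rw [hi]; exact he
  · exact eq_of_removeNth h hi

theorem LL_lin : ∀ g g' : Pt n q, ∀ c c' : Fin (n + 1), g ≠ g' → LL w lam c g = LL w lam c g' →
    LL w lam c' g = LL w lam c' g' → c = c' := by
  intro g g' c c' hne h1 h2
  by_contra hcc
  exact ne_at hne (LL_removeNth w lam h1) (eq_of_removeNth (LL_removeNth w lam h2) hcc)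

theorem LL_tri : ∀ g g' g'' : Pt n q, ∀ c c' c'' : Fin (n + 1), g ≠ g' → g ≠ g'' → g' ≠ g'' →
    LL w lam c g = LL w lam c g' → LL w lam c' g = LL w lam c' g'' →
    LL w lam c'' g' = LL w lam c'' g'' → c = c' ∧ c = c'' := by
  intro g g' g'' c c' c'' h12 h13 h23 e1 e2 e3
  have a1 := ne_at h12 (LL_removeNth w lam e1)
  have a2 := ne_at h13 (LL_removeNth w lam e2)
  have a3 := ne_at h23 (LL_removeNth w lam e3)
  have b1 := fun i (hi : i ≠ c) => eq_of_removeNth (LL_removeNth w lam e1) hi
  have b2 := fun i (hi : i ≠ c') => eq_of_removeNth (LL_removeNth w lam e2) hi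
  have b3 := fun i (hi : i ≠ c'') => eq_of_removeNth (LL_removeNth w lam e3) hi
  have hcc' : c = c' := by
    by_contra hne
    -- at c: g c = g'' c, g c ≠ g' c, so g' c ≠ g'' c so c = c''
    have h1 := b2 c hne
    have h2 : c = c'' := by
      by_contra h
      exact a1 (h1.trans (b3 c h).symm)
    have h3 := b1 c' (Ne.symm hne)
    have h4 : c' = c'' := by
      by_contra h
      exact a2 (h3.trans (b3 c' h))
    exact hne (h2.trans h4.symm)
  refine ⟨hcc', ?_⟩
  by_contra hne
  have h1 := b1 c'' (Ne.symm hne)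
  have h2 := b2 c'' (fun h => hne (hcc'.trans h.symm))
  exact a3 (h1.symm.trans h2)

theorem LL_nb (g g' : Pt n q) (c : Fin (n + 1)) (h : LL w lam c g = LL w lam c g') :
    ∃ k : Fin (n + 1) × ZMod q, Function.update g k.1 k.2 = g' := by
  refine ⟨(c, g' c), ?_⟩
  funext i
  by_cases hi : i = c
  · subst hi; simp
  · simp only [Function.update_of_ne hi]
    exact eq_of_removeNth (LL_removeNth w lam h) hi

theorem LL_injOn (X : Finset (Pt n q)) (hX : Good w lam X) (c : Fin (n + 1)) :
    Set.InjOn (LL w lam c) X := by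
  intro g hg g' hg' he
  have h1 := LL_removeNth w lam he
  have h2 := (Prod.ext_iff.1 he).2
  simp only [LL] at h2
  have h3 : lam (c, Fin.removeNth c g) (g c) = lam (c, Fin.removeNth c g) (g' c) := by
    have : ∀ (col : Col n q), Fin.removeNth c g = col →
        Fin.castLE (w (c, Fin.removeNth c g)).isLt.le (lam (c, Fin.removeNth c g) (g c)) =
        Fin.castLE (w (c, col)).isLt.le (lam (c, col) (g' c)) →
        lam (c, Fin.removeNth c g) (g c) = lam (c, Fin.removeNth c g) (g' c) := by
      rintro col rfl hh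
      exact Fin.castLE_injective _ hh
    exact this _ h1 h2
  have m1 : g c ∈ colset X (c, Fin.removeNth c g) := by
    rw [mem_colset]
    simp only [Fin.insertNth_self_removeNth]
    exact hg
  have m2 : g' c ∈ colset X (c, Fin.removeNth c g) := by
    rw [mem_colset, h1]
    simp only [Fin.insertNth_self_removeNth]
    exact hg'
  have h4 := hX (c, Fin.removeNth c g) m1 m2 h3
  by_contra hne
  exact ne_at hne h1 h4

theorem LL_image (X : Finset (Pt n q)) (hX : Good w lam X)
    (hXw : ∀ p, (colset X p).card = (w p).val) (c : Fin (n + 1)) :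
    (univ.image (LL w lam c)).card = X.card := by
  rw [← card_image_of_injOn (LL_injOn w lam X hX c)]
  congr 1
  apply subset_antisymm
  · intro x hx
    rw [mem_image] at hx
    obtain ⟨g, _, rfl⟩ := hx
    set col := Fin.removeNth c g with hcol
    have hsurj : (colset X (c, col)).image (lam (c, col)) = univ := by
      apply eq_univ_of_card
      rw [card_image_of_injOn (hX (c, col)), hXw, Fintype.card_fin]
    have : lam (c, col) (g c) ∈ (colset X (c, col)).image (lam (c, col)) := by
      rw [hsurj]; exact mem_univ _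
    rw [mem_image] at this
    obtain ⟨x', hx', he⟩ := this
    rw [mem_colset] at hx'
    rw [mem_image]
    refine ⟨_, hx', ?_⟩
    have e1 : Fin.removeNth c (Fin.insertNth c x' col : Pt n q) = col := by simp
    have e2 : (Fin.insertNth c x' col : Pt n q) c = x' := by simp
    have e3 : LL w lam c (Fin.insertNth c x' col : Pt n q)
        = (col, Fin.castLE (w (c, col)).isLt.le (lam (c, col) x')) :=
      LL_eq w lam c _ col x' e1 e2
    have e4 : LL w lam c g = (col, Fin.castLE (w (c, col)).isLt.le (lam (c, col) (g c))) :=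
      LL_eq w lam c g col (g c) rfl rfl
    rw [e4, ← he]
    exact e3
  · exact image_subset_image (subset_univ _)

end geom

end Pool.Agent.Work.MP_71927a_co
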