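import Mathlib
import Pool.Agent.Work.MP_71927a_co.Geom

set_option autoImplicit false
set_option linter.unusedSectionVars false

namespace Pool.Agent.Work.MP_71927a_co

open Finset Classical

theorem exists_r (b : ℕ) (hb : 1 ≤ b) (C : ℝ) : ∃ r : ℕ, 2 ≤ r ∧ 2 * r ^ 2 * b ^ 2 ≤ 2 ^ r ∧
    2 * C * b < r := by
  have h1 := tendsto_pow_const_div_const_pow_of_one_lt 2 (r := (2 : ℝ)) (by norm_num)
  have hpos : (0 : ℝ) < 1 / (2 * b ^ 2) := by
    have : (1 : ℝ) ≤ b := by exact_mod_cast hb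
    positivity
  have h2 := (h1.eventually (gt_mem_nhds hpos))
  have h3 := (Filter.eventually_ge_atTop (2 : ℕ))
  have h4 : ∀ᶠ r : ℕ in Filter.atTop, 2 * C * b < (r : ℝ) :=
    (tendsto_natCast_atTop_atTop (R := ℝ)).eventually (Filter.eventually_gt_atTop _)
  obtain ⟨r, h5, h6, h7⟩ := (h2.and (h3.and h4)).exists
  refine ⟨r, h6, ?_, h7⟩
  have hb' : (1 : ℝ) ≤ b := by exact_mod_cast hb
  rw [div_lt_div_iff₀ (by positivity) (by positivity)] at h5
  have : (2 : ℝ) * r ^ 2 * b ^ 2 ≤ 2 ^ r := by linarith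
  exact_mod_cast this

theorem eight_pow (r : ℕ) (hr : 2 ≤ r) : 14 * r + 5 ≤ 8 ^ r := by
  induction r, hr using Nat.le_induction with
  | base => norm_num
  | succ r _ ih => rw [pow_succ]; omega

/-- The combinatorial core: a triangle-free graph with too many maximum independent sets. -/
theorem core (C : ℝ) : ∃ (V : Type) (_ : Fintype V) (G : SimpleGraph V) (A : ℕ)
    (F : Finset (Finset V)), G.CliqueFree 3 ∧ (∀ I : Finset V, Indep G I → I.card ≤ A) ∧
      (∀ I ∈ F, Indep G I ∧ I.card = A) ∧ (2 : ℝ) ^ (C * (A : ℝ)) < (F.card : ℝ) := by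
  obtain ⟨B, _, _, Θ, h, m, hG⟩ := exists_gadget
  set b := Fintype.card B with hb
  have hbpos : 1 ≤ b := by
    have h1 := hG.h1
    have h2 := hG.h4
    have : 0 < 6 * h * 2 ^ 46 := by positivity
    omega
  obtain ⟨r, hr2, hrb, hrC⟩ := exists_r b hbpos C
  obtain ⟨n, rfl⟩ : ∃ n, r = n + 1 := ⟨r - 1, by omega⟩
  obtain ⟨M, hM⟩ : ∃ M, M = 8 ^ (n + 1) := ⟨_, rfl⟩
  have hMpos : 1 ≤ M := by rw [hM]; exact Nat.one_le_pow _ _ (by norm_num)
  obtain ⟨q, hq⟩ : ∃ q, q = M ^ 2 + M + 1 := ⟨_, rfl⟩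
  have hqpos : 0 < q := by rw [hq]; positivity
  have : NeZero q := ⟨hqpos.ne'⟩
  have hM2 : M = 2 ^ (3 * (n + 1)) := by rw [hM, pow_mul]; norm_num
  have hq7 : q + 1 ≤ 2 ^ (7 * (n + 1)) := by
    have e1 : M ^ 2 = 2 ^ (6 * (n + 1)) := by
      rw [hM2, ← pow_mul]
      congr 1
      ring
    have e2 : 2 * 2 ^ (6 * (n + 1)) ≤ 2 ^ (7 * (n + 1)) := by
      rw [← pow_succ']
      apply Nat.pow_le_pow_right (by norm_num)
      omega
    have e3 : M + 2 ≤ M ^ 2 := by
      have : 2 ≤ M := by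
        rw [hM]
        calc 2 ≤ 8 ^ 1 := by norm_num
          _ ≤ 8 ^ (n + 1) := Nat.pow_le_pow_right (by norm_num) (by omega)
      nlinarith
    rw [hq]
    omega
  have hq2 : 2 ≤ q := by rw [hq]; nlinarith
  -- labelling
  obtain ⟨w, hw⟩ := exists_w (n := n) (q := q) M
  have hYY := card_YY (n := n) (q := q) M hq hMpos
  have hXXpos : 0 < (XX M w).card := by
    by_contra hcon
    have : (XX M w).card = 0 := by omega
    rw [this, zero_mul] at hw
    have : 0 < M ^ (M * q ^ n) := by positivity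
    omega
  have hwpos : ∀ p, 0 < (w p).val := by
    intro p
    obtain ⟨X, hX⟩ := card_pos.1 hXXpos
    rw [XX, mem_filter] at hX
    obtain ⟨_, ⟨h1, _⟩, h2⟩ := hX
    rw [← h2 p, card_pos]
    refine ⟨-∑ i, p.2 i, ?_⟩
    have h3 : -∑ i, p.2 i ∈ colset (X0 n q) p := by
      rw [colset_X0, mem_singleton]
    rw [mem_colset] at h3 ⊢
    exact h1 h3
  obtain ⟨lam, hlam⟩ := exists_labelling M w hwpos
  set GX := (XX M w).filter (fun X => Good w lam X) with hGX
  set a := (M + 1) * q ^ n with ha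
  -- size of GX
  obtain ⟨t, ht⟩ : ∃ t, M = 2 + 7 * (n + 1) + t := by
    have := eight_pow (n + 1) hr2
    rw [← hM] at this
    exact ⟨M - (2 + 7 * (n + 1)), by omega⟩
  set e := (n + 1) * q ^ n * t with he
  have hGXe : 2 ^ e ≤ GX.card := by
    have k1 : M ^ (M * q ^ n) ≤ GX.card * 4 ^ ((n + 1) * a) * (q + 1) ^ ((n + 1) * q ^ n) :=
      hYY.trans (hw.trans (Nat.mul_le_mul_right _ hlam))
    have k2 : M ^ (M * q ^ n) = 2 ^ e * (2 ^ (2 * ((n + 1) * a)) *
        2 ^ (7 * (n + 1) * ((n + 1) * q ^ n))) := by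
      rw [← pow_add, ← pow_add]
      have : M ^ (M * q ^ n) = 2 ^ (3 * (n + 1) * (M * q ^ n)) := by
        rw [pow_mul 2 (3 * (n + 1)), ← hM2]
      rw [this]
      congr 1
      rw [he, ha]
      have e1 : 3 * (n + 1) * (M * q ^ n) = (n + 1) * q ^ n * M + 2 * ((n + 1) * (M * q ^ n)) := by
        ring
      rw [e1]
      nth_rewrite 1 [ht]
      ring
    have k3 : (q + 1) ^ ((n + 1) * q ^ n) ≤ 2 ^ (7 * (n + 1) * ((n + 1) * q ^ n)) := by
      rw [pow_mul 2 (7 * (n + 1))]
      exact Nat.pow_le_pow_left hq7 _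
    have k4 : 4 ^ ((n + 1) * a) = 2 ^ (2 * ((n + 1) * a)) := by
      rw [show (4 : ℕ) = 2 ^ 2 by norm_num, ← pow_mul]
    rw [k2, k4] at k1
    have k5 := k1.trans (Nat.mul_le_mul_left _ k3)
    rw [mul_assoc GX.card] at k5
    exact Nat.le_of_mul_le_mul_right k5 (by positivity)
  have h2e : (n + 1) * a ≤ 2 * e := by
    have k1 := eight_pow (n + 1) hr2
    rw [← hM] at k1
    have k2 : M + 1 ≤ 2 * t := by omega
    rw [ha, he]
    calc (n + 1) * ((M + 1) * q ^ n) = (n + 1) * q ^ n * (M + 1) := by ring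
      _ ≤ (n + 1) * q ^ n * (2 * t) := Nat.mul_le_mul_left _ k2
      _ = 2 * ((n + 1) * q ^ n * t) := by ring
  have hapos : 0 < a := by rw [ha]; positivity
  have hGXpos : 0 < GX.card := lt_of_lt_of_le (by positivity) hGXe
  obtain ⟨X₁, hX₁⟩ := card_pos.1 hGXpos
  have hmemGX : ∀ X ∈ GX, X.card = a ∧ (∀ p, (colset X p).card = (w p).val) ∧ Good w lam X := by
    intro X hX
    rw [hGX, mem_filter, XX, mem_filter] at hX
    exact ⟨hX.1.2.1.2, hX.1.2.2, hX.2⟩
  have himg : ∀ c, (univ.image (LL w lam c)).card = a := by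
    intro c
    obtain ⟨h1, h2, h3⟩ := hmemGX X₁ hX₁
    rw [LL_image w lam X₁ h3 h2 c, h1]
  -- the permutations
  obtain ⟨π, hπ⟩ := exists_good_pi (LL w lam) Θ h m hG (LL_lin w lam)
    (κ := Fin (n + 1) × ZMod q) (fun g k => Function.update g k.1 k.2)
    (fun g g' c hc => LL_nb w lam g g' c hc) (by rw [Fintype.card_fin]; omega) (by
      intro s hs
      rw [Fintype.card_fin] at hs ⊢
      rw [card_Pt, Fintype.card_prod, Fintype.card_fin, ZMod.card, ← hb]
      have c1 : b ≤ q ^ (n + 1) := by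
        calc b ≤ 2 * (n + 1) ^ 2 * b ^ 2 := by
              have : 1 ≤ (n + 1) ^ 2 * b := Nat.mul_pos (by positivity) hbpos
              nlinarith
          _ ≤ 2 ^ (n + 1) := hrb
          _ ≤ q ^ (n + 1) := Nat.pow_le_pow_left hq2 _
      have c2 : q ^ (n + 1) * b ≤ q ^ s := by
        calc q ^ (n + 1) * b ≤ q ^ (n + 1) * q ^ (n + 1) := Nat.mul_le_mul_left _ c1
          _ = q ^ (2 * (n + 1)) := by rw [← pow_add]; congr 1; ring
          _ ≤ q ^ s := Nat.pow_le_pow_right hqpos hs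
      have c3 : ((n + 1) * q * b) ^ (2 * (s - 1)) ≤ ((n + 1) * q * b) ^ (2 * s) := by
        apply Nat.pow_le_pow_right
        · positivity
        · omega
      have c4 : 2 * q * ((n + 1) * q * b) ^ 2 ≤ 2 ^ (22 * (n + 1)) := by
        calc 2 * q * ((n + 1) * q * b) ^ 2 = (2 * (n + 1) ^ 2 * b ^ 2) * q ^ 3 := by ring
          _ ≤ 2 ^ (n + 1) * (2 ^ (7 * (n + 1))) ^ 3 :=
              Nat.mul_le_mul hrb (Nat.pow_le_pow_left (by omega) 3)
          _ = 2 ^ (22 * (n + 1)) := by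
              rw [← pow_mul, ← pow_add]
              congr 1
              ring
      calc q ^ (n + 1) * b * ((n + 1) * q * b) ^ (2 * (s - 1)) * 2 ^ s
          ≤ q ^ s * ((n + 1) * q * b) ^ (2 * s) * 2 ^ s :=
            Nat.mul_le_mul_right _ (Nat.mul_le_mul c2 c3)
        _ = (2 * q * ((n + 1) * q * b) ^ 2) ^ s := by
            rw [pow_mul, mul_pow (2 * q), mul_pow 2 q]
            ring
        _ ≤ (2 ^ (22 * (n + 1))) ^ s := Nat.pow_le_pow_left c4 s
        _ = 2 ^ (22 * ((n + 1) * s)) := by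
            rw [← pow_mul]
            congr 1
            ring)
  refine ⟨Pt n q × B, inferInstance, bigG (LL w lam) Θ π, a * b,
    GX.image (fun X => X ×ˢ (univ : Finset B)), ?_, ?_, ?_, ?_⟩
  · exact bigG_cliqueFree _ _ _ hG.tf (LL_tri w lam)
  · intro I hI
    exact upper (LL w lam) Θ h m hG π hπ a himg (by rw [Fintype.card_fin]; omega) I hI
  · intro I hI
    rw [mem_image] at hI
    obtain ⟨X, hX, rfl⟩ := hI
    obtain ⟨h1, h2, h3⟩ := hmemGX X hX
    refine ⟨?_, ?_⟩
    · rintro u hu v hv ⟨hne, c, hc, _⟩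
      rw [mem_product] at hu hv
      exact hne (LL_injOn w lam X h3 c hu.1 hv.1 hc)
    · rw [card_product, h1, card_univ]
  · have hinj : (GX.image (fun X => X ×ˢ (univ : Finset B))).card = GX.card := by
      apply card_image_of_injective
      intro X Y hXY
      have hXY' : X ×ˢ (univ : Finset B) = Y ×ˢ (univ : Finset B) := hXY
      have hBne : Nonempty B := Fintype.card_pos_iff.1 hbpos
      obtain ⟨i⟩ := hBne
      ext g
      have := Finset.ext_iff.1 hXY' (g, i)
      rw [mem_product, mem_product] at this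
      simpa using this
    rw [hinj]
    have e1 : C * ((a * b : ℕ) : ℝ) < (e : ℝ) := by
      have f1 : (((n + 1) * a : ℕ) : ℝ) ≤ ((2 * e : ℕ) : ℝ) := by exact_mod_cast h2e
      push_cast at f1 hrC ⊢
      have f2 : (0 : ℝ) < a := by exact_mod_cast hapos
      have f3 : 2 * C * b * a < ((n : ℝ) + 1) * a := mul_lt_mul_of_pos_right hrC f2
      nlinarith
    calc (2 : ℝ) ^ (C * ((a * b : ℕ) : ℝ)) < (2 : ℝ) ^ (e : ℝ) :=
          Real.rpow_lt_rpow_of_exponent_lt (by norm_num) e1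
      _ = ((2 ^ e : ℕ) : ℝ) := by rw [Real.rpow_natCast]; push_cast; rfl
      _ ≤ (GX.card : ℝ) := by exact_mod_cast hGXe

/-- The negation of the conjecture. -/
theorem not_bounded :
    ¬ (∃ C : ℝ, ∀ (n : ℕ) (G : SimpleGraph (Fin n)), G.CliqueFree 3 →
      (({s : Finset (Fin n) | G.IsNIndepSet G.indepNum s}.ncard : ℕ) : ℝ)
        ≤ (2 : ℝ) ^ (C * (G.indepNum : ℝ))) := by
  rintro ⟨C, hC⟩
  obtain ⟨V, _, G, A, F, hcf, hub, hF, hlt⟩ := core C
  set e : V ≃ Fin (Fintype.card V) := Fintype.equivFin V with he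
  set G' : SimpleGraph (Fin (Fintype.card V)) := G.comap e.symm with hG'
  have hcf' : G'.CliqueFree 3 := by
    have := SimpleGraph.CliqueFree.comap
      (SimpleGraph.Embedding.comap e.symm.toEmbedding G).isContained hcf
    exact this
  have hFne : F.Nonempty := by
    rw [← card_pos]
    have h1 : (0 : ℝ) < (2 : ℝ) ^ (C * (A : ℝ)) := Real.rpow_pos_of_pos (by norm_num) _
    have h2 : (0 : ℝ) < (F.card : ℝ) := h1.trans hlt
    exact_mod_cast h2
  have hmap : ∀ I ∈ F, G'.IsNIndepSet A (I.map e.toEmbedding) := by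
    intro I hI
    obtain ⟨h1, h2⟩ := hF I hI
    refine ⟨?_, by rw [card_map, h2]⟩
    intro x hx y hy _ hadj
    have hx' : x ∈ I.map e.toEmbedding := hx
    have hy' : y ∈ I.map e.toEmbedding := hy
    rw [mem_map] at hx' hy'
    obtain ⟨u, hu, rfl⟩ := hx'
    obtain ⟨v, hv, rfl⟩ := hy'
    apply h1 u hu v hv
    have : G.Adj (e.symm (e.toEmbedding u)) (e.symm (e.toEmbedding v)) := hadj
    simpa using this
  have hind : G'.indepNum = A := by
    apply le_antisymm
    · obtain ⟨s, hs⟩ := G'.exists_isNIndepSet_indepNum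
      rw [← hs.card_eq]
      have h1 : (s.map e.symm.toEmbedding).card = s.card := card_map _
      rw [← h1]
      apply hub
      intro u hu v hv hadj
      rw [mem_map] at hu hv
      obtain ⟨x, hx, rfl⟩ := hu
      obtain ⟨y, hy, rfl⟩ := hv
      have hadj' : G'.Adj x y := hadj
      exact hs.isIndepSet hx hy hadj'.ne hadj'
    · obtain ⟨I, hI⟩ := hFne
      have h1 := hmap I hI
      have h2 := h1.isIndepSet.card_le_indepNum
      rw [h1.card_eq] at h2
      exact h2
  have h1 := hC _ G' hcf'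
  rw [hind] at h1
  have h2 : F.card ≤ ({s : Finset (Fin (Fintype.card V)) | G'.IsNIndepSet A s}.ncard) := by
    have h3 : (F.image (fun I => I.map e.toEmbedding)).card = F.card := by
      apply card_image_of_injective
      exact Finset.map_injective _
    rw [← h3, ← Set.ncard_coe_finset]
    apply Set.ncard_le_ncard
    · intro s hs
      have hs' : s ∈ F.image (fun I => I.map e.toEmbedding) := hs
      rw [mem_image] at hs'
      obtain ⟨I, hI, rfl⟩ := hs'
      exact hmap I hI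
    · exact Set.toFinite _
  have h4 : (F.card : ℝ) ≤ (({s : Finset (Fin (Fintype.card V)) |
      G'.IsNIndepSet A s}.ncard : ℕ) : ℝ) := by exact_mod_cast h2
  linarith

end Pool.Agent.Work.MP_71927a_co
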